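import Pool.Agent.Lib.L8.FI.F4

/-!
# FI: the local statement in its final form
-/

namespace Pool.Agent.Lib.L8.FI

open Matrix Pool.Agent.Lib.L1S

noncomputable section

set_option linter.unusedSectionVars false

variable {ι M N : Type} [Fintype ι] [DecidableEq ι] [AddCommGroup M] [Module ℚ M] [AddCommGroup N] [Module ℚ N]
  {P : RootPairing ι ℚ M N} [P.IsCrystallographic] [P.IsReduced] [P.IsIrreducible] [P.IsRootSystem] {b : P.Base} {K : Type} [Field K] [CharZero K]
  {v : AbsoluteValue K ℝ} {ν : ℝ} (hv : IsNonarchimedean (v : K → ℝ))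

include hv in
/-- **Two level conditions** (a letter which was not used before). -/
theorem level2 {i : b.support} (h0 : 0 ≤ ν) (hν : ν ≤ 1) {k : GK b K} {ρ : K} (h : PN v i ν k) (h' : PN v i ν (kap v i ρ * k)) : 1 ≤ ν * max 1 (v ρ) := by
  have m1 : (1 : ℝ) ≤ max 1 (v ρ) := le_max_left _ _
  rcases eq_or_lt_of_le hν with hν1 | hν1
  · rw [hν1, one_mul]
    exact m1
  · have h1 : PN v i ν (kap v i ρ) := by
      have e : kap v i ρ = kap v i ρ * k * k⁻¹ := by group
      rw [e]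
      exact h'.mul hv h0 h.inv
    by_cases c1 : v ρ ≤ 1
    · exfalso
      have e1 : fn b K i = kap v i ρ * (fx b (i : ι) ρ)⁻¹ := by
        unfold kap
        rw [if_pos c1]
        group
      have h2 : PN v i ν (fx b (i : ι) ρ) := (fx_Pj_i i i _).toPN h0 (fx_Iv hv _ c1)
      have h3 : PN v i ν (fn b K i) := by
        rw [e1]
        exact h1.mul hv h0 h2.inv
      exact no_fn hv hν1 h3
    · unfold kap at h1
      rw [if_neg c1] at h1
      have h2 := h1.2.1 (Sum.inl i) (Sum.inr (i : ι)) (by rw [wq_simple, if_pos rfl]; exact zero_lt_one)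
      rw [fy_entry, map_inv₀] at h2
      have h3 : 0 < v ρ := zero_lt_one.trans (not_le.1 c1)
      rw [max_eq_right (not_le.1 c1).le]
      rw [inv_le_iff_one_le_mul₀ h3] at h2
      exact h2

include hv in
theorem level2_z {i : b.support} (h0 : 0 ≤ ν) (hν : ν ≤ 1) {u t k : GK b K} {s : b.support → Kˣ} (hu : Uu u) (ht : Tors s t) (hk : Iv v k) {r : K}
    (h : Chi v i ν (u * t * k)) (h' : Chi v i ν (fn b K i * fx b (i : ι) r * (u * t * k))) : Av v i (u * t * k) ≤ ν * max (Av v i (u * t * k)) (v (r + fc i u)) := by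
  obtain ⟨⟨u₁, t₁, hu₁, ht₁, e₁⟩, _⟩ := rank_one hv i hu ht hk r
  rw [e₁] at h'
  have h1 := Chi.toPN hv h0 hν hu₁ ht₁ ((kap_Iv hv i _).mul hv hk) h'
  have h2 := Chi.toPN hv h0 hν hu ht.tor hk h
  have h3 := level2 hv h0 hν h2 h1
  have hA : Av v i (u * t * k) = v (ch s (Sum.inr (i : ι))) := by rw [Av_eq hv hu ht.tor hk, ht.val]
  rw [hA]
  have hv0 : 0 < v (ch s (Sum.inr (i : ι))) := v.pos (ch_ne s _)
  have e4 : v (ch s (Sum.inr (i : ι))) * max 1 (v ((r + fc i u) / ch s (Sum.inr (i : ι)))) = max (v (ch s (Sum.inr (i : ι)))) (v (r + fc i u)) := by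
    rw [mul_max_of_nonneg _ _ hv0.le, mul_one, map_div₀, mul_div_cancel₀ _ hv0.ne']
  rw [← e4]
  calc v (ch s (Sum.inr (i : ι))) = v (ch s (Sum.inr (i : ι))) * 1 := (mul_one _).symm
    _ ≤ v (ch s (Sum.inr (i : ι))) * (ν * max 1 (v ((r + fc i u) / ch s (Sum.inr (i : ι))))) := mul_le_mul_of_nonneg_left h3 hv0.le
    _ = _ := by ring

include hv in
/-- **The local statement.** For `i` and `z` there is `c` such that the heights of `n_i x_i(r) z` are `A_j(z) max(A_i(z), |r + c|) ^ (-⟨α_j, α_i^∨⟩)`, and the level conditions give the two estimates; `c = 0` if `z` is integral. -/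
theorem loc (i : b.support) (z : GK b K) : ∃ c : K, (Iv v z → c = 0) ∧
    (∀ (r : K) (j : b.support), Av v j (fn b K i * fx b (i : ι) r * z) = Av v j z * (max (Av v i z) (v (r + c))) ^ (-(P.pairingIn ℤ j i))) ∧
    ∀ ν : ℝ, 0 ≤ ν → ν ≤ 1 →
      (∀ r r' : K, Chi v i ν (fn b K i * fx b (i : ι) r * z) → Chi v i ν (fn b K i * fx b (i : ι) r' * z) →
        v (r - r') ≤ ν * max (Av v i z) (v (r + c)) * max (Av v i z) (v (r' + c)) / Av v i z) ∧
      ∀ r : K, Chi v i ν z → Chi v i ν (fn b K i * fx b (i : ι) r * z) → Av v i z ≤ ν * max (Av v i z) (v (r + c)) := by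
  have key : ∀ (u t k : GK b K) (s : b.support → Kˣ), Uu u → Tors s t → Iv v k → z = u * t * k →
      (∀ (r : K) (j : b.support), Av v j (fn b K i * fx b (i : ι) r * z) = Av v j z * (max (Av v i z) (v (r + fc i u))) ^ (-(P.pairingIn ℤ j i))) ∧
      ∀ ν : ℝ, 0 ≤ ν → ν ≤ 1 →
        (∀ r r' : K, Chi v i ν (fn b K i * fx b (i : ι) r * z) → Chi v i ν (fn b K i * fx b (i : ι) r' * z) →
          v (r - r') ≤ ν * max (Av v i z) (v (r + fc i u)) * max (Av v i z) (v (r' + fc i u)) / Av v i z) ∧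
        ∀ r : K, Chi v i ν z → Chi v i ν (fn b K i * fx b (i : ι) r * z) → Av v i z ≤ ν * max (Av v i z) (v (r + fc i u)) := by
    rintro u t k s hu ht hk rfl
    refine ⟨fun r j => (rank_one hv i hu ht hk r).2 j, fun ν h0 hν => ⟨fun r r' h h' => ?_, fun r h h' => level2_z hv h0 hν hu ht hk h h'⟩⟩
    rw [le_div_iff₀ (Av_pos hv i _)]
    exact level_z hv h0 hν hu ht hk h h'
  by_cases hz : Iv v z
  · have h1 := key 1 1 z _ Uu.one Tors.one hz (by rw [one_mul, one_mul])
    have e : fc i (1 : GK b K) = 0 := by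
      unfold fc
      rw [f_one]
      exact Matrix.one_apply_ne (by simp)
    rw [e] at h1
    exact ⟨0, fun _ => rfl, h1.1, h1.2⟩
  · obtain ⟨u, s, t, k, hu, ht, hk, e⟩ := iwasawa hv z
    obtain ⟨h1, h2⟩ := key u t k s hu ht hk e
    exact ⟨fc i u, fun h => absurd h hz, h1, h2⟩

end

end Pool.Agent.Lib.L8.FI
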