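import Pool.Agent.Lib.L8.FI.F5
import Pool.Agent.Lib.L8.FL.Defs
import Pool.Agent.Lib.H89N.NU2
import Pool.Agent.Lib.L1S.D5

/-!
# FI: the local part over a number field, in the definitions of `FL/Defs.lean`
-/

namespace Pool.Agent.Lib.L8.FI

open Matrix NumberField IsDedekindDomain Pool.Agent.Lib.H89N Pool.Agent.Lib.L1S
open Pool.Agent.Lib.L8.FL (av aI Gv Kv IwA Ah TK tv PJ G1)

noncomputable section

set_option linter.unusedSectionVars false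

variable {ι M N : Type} [Fintype ι] [DecidableEq ι] [AddCommGroup M] [Module ℚ M] [AddCommGroup N] [Module ℚ N]
  {P : RootPairing ι ℚ M N} [P.IsCrystallographic] [P.IsReduced] [P.IsIrreducible] [P.IsRootSystem] (b : P.Base) {K : Type} [Field K] [NumberField K]

theorem g1_nonarch (v : HeightOneSpectrum (𝓞 K)) : IsNonarchimedean (av v : K → ℝ) := aw_nonarch v

theorem g1_aI_pos (v : HeightOneSpectrum (𝓞 K)) (𝔫 : Ideal (𝓞 K)) : 0 < aI v 𝔫 := nw_pos v 𝔫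

theorem g1_aI_le (v : HeightOneSpectrum (𝓞 K)) (𝔫 : Ideal (𝓞 K)) : aI v 𝔫 ≤ 1 := nw_le_one v 𝔫

theorem g1_fn (i : b.support) : b1m b K i 1 = fn b K i := rfl

theorem g1_fx (β : ι) (r : K) : b1x b K β r = fx b β r := rfl

theorem g1_Gv (v : HeightOneSpectrum (𝓞 K)) (k : GK b K) : k ∈ Gv b v ↔ Iv (av v) k :=
  ⟨fun h => ⟨fun r c => (h r c).1, fun r c => (h r c).2⟩, fun h r c => ⟨h.1 r c, h.2 r c⟩⟩

theorem g1_Kv (𝔫 : Ideal (𝓞 K)) (v : HeightOneSpectrum (𝓞 K)) (k : GK b K) : k ∈ Kv b 𝔫 v ↔ Cg (av v) (aI v 𝔫) k :=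
  ⟨fun h => ⟨fun r c => (h r c).1, fun r c => (h r c).2⟩, fun h r c => ⟨h.1 r c, h.2 r c⟩⟩

theorem g1_TK (t : GK b K) : t ∈ TK b K ↔ Tor t :=
  ⟨fun h r c hrc => (h r c hrc).1, fun h r c hrc => ⟨h r c hrc, h.inv r c hrc⟩⟩

theorem g1_HU (u : GK b K) : u ∈ HU b K ↔ Uu u := mem_HU_iff b u

theorem g1_PJ (j : b.support) (p : GK b K) : p ∈ PJ b K j ↔ Pj j p := by
  have h : ∀ r c : I b, mc b j r < mc b j c ↔ wq b r j < wq b c j := fun r c => by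
    rw [← d5_mc, ← d5_mc]
    exact Int.cast_lt.symm
  exact ⟨fun hp r c hrc => hp r c ((h r c).2 hrc), fun hp r c hrc => hp r c ((h r c).1 hrc)⟩

/-- The level condition is local. -/
theorem g1_Chi (𝔫 : Ideal (𝓞 K)) (j : b.support) (g : GK b K) : FL.Chi b 𝔫 j g ↔ ∀ v : HeightOneSpectrum (𝓞 K), Chi (av v) j (aI v 𝔫) g := by
  refine forall_congr' fun v => ⟨?_, ?_⟩
  · rintro ⟨p, hp, k, hk, e⟩
    exact ⟨p, (g1_PJ b j p).1 hp, k, (g1_Kv b 𝔫 v k).1 hk, e⟩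
  · rintro ⟨p, hp, k, hk, e⟩
    exact ⟨p, (g1_PJ b j p).2 hp, k, (g1_Kv b 𝔫 v k).2 hk, e⟩

variable (v : HeightOneSpectrum (𝓞 K))

/-- **Iwasawa decomposition at `v`.** -/
theorem g1_iwasawa (g : GK b K) : ∃ u ∈ HU b K, ∃ t ∈ TK b K, ∃ k ∈ Gv b v, g = u * t * k := by
  obtain ⟨u, s, t, k, hu, ht, hk, e⟩ := iwasawa (g1_nonarch v) g
  exact ⟨u, (g1_HU b u).2 hu, t, (g1_TK b t).2 ht.tor, k, (g1_Gv b v k).2 hk, e⟩

theorem g1_IwA (g : GK b K) (a : b.support → ℝ) : IwA b v g a ↔ a = fun j => Av (av v) j g := by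
  have key : ∀ {u t k : GK b K}, u ∈ HU b K → t ∈ TK b K → k ∈ Gv b v → ∀ j : b.support, Av (av v) j (u * t * k) = av v (tv b K t j) := fun hu ht hk j =>
    Av_eq (g1_nonarch v) ((g1_HU b _).1 hu) ((g1_TK b _).1 ht) ((g1_Gv b v _).1 hk) j
  constructor
  · rintro ⟨u, hu, t, ht, k, hk, rfl, h⟩
    funext j
    rw [key hu ht hk, h]
  · rintro rfl
    obtain ⟨u, hu, t, ht, k, hk, rfl⟩ := g1_iwasawa b v g
    exact ⟨u, hu, t, ht, k, hk, rfl, fun j => key hu ht hk j⟩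

/-- **The height.** -/
theorem g1_Ah (g : GK b K) (j : b.support) : Ah b v g j = Av (av v) j g := by
  have h : ∃ a, IwA b v g a := ⟨_, (g1_IwA b v g _).2 rfl⟩
  unfold Ah
  rw [dif_pos h, (g1_IwA b v g _).1 h.choose_spec]

/-- The height of `u t k`. -/
theorem Ah_utk {u t k : GK b K} (hu : u ∈ HU b K) (ht : t ∈ TK b K) (hk : k ∈ Gv b v) (j : b.support) : Ah b v (u * t * k) j = av v (tv b K t j) := by
  rw [g1_Ah]
  exact Av_eq (g1_nonarch v) ((g1_HU b u).1 hu) ((g1_TK b t).1 ht) ((g1_Gv b v k).1 hk) j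

theorem Ah_pos (g : GK b K) (j : b.support) : 0 < Ah b v g j := by
  rw [g1_Ah]
  exact Av_pos (g1_nonarch v) j g

theorem Ah_val (g : GK b K) (j : b.support) : ∃ y : K, y ≠ 0 ∧ Ah b v g j = av v y := by
  rw [g1_Ah]
  exact Av_val (g1_nonarch v) j g

theorem Ah_U {u : GK b K} (hu : u ∈ HU b K) (g : GK b K) (j : b.support) : Ah b v (u * g) j = Ah b v g j := by
  rw [g1_Ah, g1_Ah]
  exact Av_U (g1_nonarch v) ((g1_HU b u).1 hu) g j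

theorem Ah_T {t : GK b K} (ht : t ∈ TK b K) (g : GK b K) (j : b.support) : Ah b v (t * g) j = av v (tv b K t j) * Ah b v g j := by
  rw [g1_Ah, g1_Ah]
  exact Av_T (g1_nonarch v) ((g1_TK b t).1 ht) g j

theorem Ah_K {k : GK b K} (hk : k ∈ Gv b v) (g : GK b K) (j : b.support) : Ah b v (g * k) j = Ah b v g j := by
  rw [g1_Ah, g1_Ah]
  exact Av_K (g1_nonarch v) ((g1_Gv b v k).1 hk) g j

theorem Ah_Gv {k : GK b K} (hk : k ∈ Gv b v) (j : b.support) : Ah b v k j = 1 := by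
  rw [g1_Ah]
  exact Av_Iv (g1_nonarch v) ((g1_Gv b v k).1 hk) j

theorem g1_mem_G1 {𝔫 : Ideal (𝓞 K)} (h0 : 𝔫 ≠ ⊥) {g : GK b K} (hg : g ∈ G1 b 𝔫) : g ∈ Kv b 𝔫 v := by
  intro r c
  have key : ∀ x : K, L1S.InI 𝔫 x → av v x ≤ aI v 𝔫 := by
    rintro x ⟨y, hy, rfl⟩
    exact (nu2_A h0 (y : K)).1 ⟨y, hy, rfl⟩ v
  exact ⟨key _ (hg r c).1, key _ (hg r c).2⟩

theorem g1_Kv_Gv {𝔫 : Ideal (𝓞 K)} {g : GK b K} (hg : g ∈ Kv b 𝔫 v) : g ∈ Gv b v := by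
  rw [g1_Gv, ← Cg_one_iff (g1_nonarch v)]
  have h := (g1_Kv b 𝔫 v g).1 hg
  exact ⟨fun r c => (h.1 r c).trans (g1_aI_le v 𝔫), fun r c => (h.2 r c).trans (g1_aI_le v 𝔫)⟩

theorem g1_G1_Gv {𝔫 : Ideal (𝓞 K)} (h0 : 𝔫 ≠ ⊥) {g : GK b K} (hg : g ∈ G1 b 𝔫) : g ∈ Gv b v := g1_Kv_Gv b v (g1_mem_G1 b v h0 hg)

/-- The heights are invariant under the right multiplication by the elements of `Γ(𝔫)`. -/
theorem Ah_G1 {𝔫 : Ideal (𝓞 K)} (h0 : 𝔫 ≠ ⊥) {k : GK b K} (hk : k ∈ G1 b 𝔫) (g : GK b K) (j : b.support) : Ah b v (g * k) j = Ah b v g j := Ah_K b v (g1_G1_Gv b v h0 hk) g j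

theorem g1_fin1 {x : K} (hx : x ≠ 0) : {v : HeightOneSpectrum (𝓞 K) | av v x ≠ 1}.Finite := by
  have h1 : (Function.mulSupport fun w : NumberField.FinitePlace K => w x).Finite := NumberField.FinitePlace.hasFiniteMulSupport hx
  have h2 : {v : HeightOneSpectrum (𝓞 K) | av v x ≠ 1} = (fun v => NumberField.FinitePlace.mk v) ⁻¹' (Function.mulSupport fun w : NumberField.FinitePlace K => w x) := by
    ext v
    have h3 : NumberField.FinitePlace.mk v x = av v x := by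
      rw [NumberField.FinitePlace.mk_apply]
      exact NumberField.FinitePlace.norm_embedding v x
    rw [Set.mem_preimage, Function.mem_mulSupport, h3]
    rfl
  rw [h2]
  exact h1.preimage (NumberField.FinitePlace.equivHeightOneSpectrum (K := K)).symm.injective.injOn

/-- An element of `K` is integral at almost all places. -/
theorem g1_fin (x : K) : {v : HeightOneSpectrum (𝓞 K) | ¬av v x ≤ 1}.Finite := by
  by_cases hx : x = 0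
  · subst hx
    have h1 : {v : HeightOneSpectrum (𝓞 K) | ¬av v (0 : K) ≤ 1} = ∅ := by
      ext v
      simp
    rw [h1]
    exact Set.finite_empty
  · exact (g1_fin1 hx).subset fun v hv h => hv h.le

/-- Almost everywhere `g` is integral. -/
theorem g1_Gv_fin (g : GK b K) : {v : HeightOneSpectrum (𝓞 K) | g ∉ Gv b v}.Finite := by
  have h1 : {v : HeightOneSpectrum (𝓞 K) | g ∉ Gv b v} ⊆ ⋃ r, ⋃ c, ({v | ¬av v (g.1.1 r c) ≤ 1} ∪ {v | ¬av v (g⁻¹.1.1 r c) ≤ 1}) := by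
    intro v hv
    by_contra h
    apply hv
    intro r c
    simp only [Set.mem_iUnion, Set.mem_union, Set.mem_ofPred_eq, not_exists, not_or, not_not] at h
    exact h r c
  refine Set.Finite.subset ?_ h1
  exact Set.finite_iUnion fun r => Set.finite_iUnion fun c => (g1_fin _).union (g1_fin _)

theorem Ah_fin (g : GK b K) (j : b.support) : {v : HeightOneSpectrum (𝓞 K) | Ah b v g j ≠ 1}.Finite :=
  (g1_Gv_fin b g).subset fun v hv hg => hv (Ah_Gv b v hg j)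

/-! ## The level condition -/

theorem Chi_left {𝔫 : Ideal (𝓞 K)} {j : b.support} {p : GK b K} (hp : p ∈ PJ b K j) (g : GK b K) : FL.Chi b 𝔫 j (p * g) ↔ FL.Chi b 𝔫 j g := by
  rw [g1_Chi, g1_Chi]
  exact forall_congr' fun v => Chi_P ((g1_PJ b j p).1 hp) g

theorem Chi_U {𝔫 : Ideal (𝓞 K)} {j : b.support} {u : GK b K} (hu : u ∈ HU b K) (g : GK b K) : FL.Chi b 𝔫 j (u * g) ↔ FL.Chi b 𝔫 j g :=
  Chi_left b ((g1_PJ b j u).2 (((g1_HU b u).1 hu).toPj j)) g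

theorem Chi_T {𝔫 : Ideal (𝓞 K)} {j : b.support} {t : GK b K} (ht : t ∈ TK b K) (g : GK b K) : FL.Chi b 𝔫 j (t * g) ↔ FL.Chi b 𝔫 j g :=
  Chi_left b ((g1_PJ b j t).2 (((g1_TK b t).1 ht).toPj j)) g

theorem Chi_ne {𝔫 : Ideal (𝓞 K)} {i j : b.support} (hij : j ≠ i) (r : K) (g : GK b K) : FL.Chi b 𝔫 j (b1m b K i 1 * b1x b K (i : ι) r * g) ↔ FL.Chi b 𝔫 j g := by
  rw [g1_Chi, g1_Chi]
  exact forall_congr' fun v => Chi_n hij.symm r g

theorem Chi_right {𝔫 : Ideal (𝓞 K)} (h0 : 𝔫 ≠ ⊥) {j : b.support} {k : GK b K} (hk : k ∈ G1 b 𝔫) (g : GK b K) : FL.Chi b 𝔫 j (g * k) ↔ FL.Chi b 𝔫 j g := by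
  rw [g1_Chi, g1_Chi]
  exact forall_congr' fun v => Chi_K (g1_nonarch v) (g1_aI_le v 𝔫) (g1_aI_pos v 𝔫).le ((g1_Kv b 𝔫 v k).1 (g1_mem_G1 b v h0 hk)) g

/-- The level condition at the places prime to `𝔫` is empty. -/
theorem Chi_away {𝔫 : Ideal (𝓞 K)} (h : aI v 𝔫 = 1) (j : b.support) (g : GK b K) : ∃ p ∈ PJ b K j, ∃ k ∈ Kv b 𝔫 v, g = p * k := by
  obtain ⟨p, hp, k, hk, e⟩ := Chi_triv (g1_nonarch v) j g
  exact ⟨p, (g1_PJ b j p).2 hp, k, (g1_Kv b 𝔫 v k).2 (by rw [h]; exact hk), e⟩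

/-- `g ∈ P_j(K) K_v(𝔫)` for the elements `g = p k` with `k` in `K_v(𝔫)` for the places `v` which divide `𝔫`. -/
theorem Chi_mk {𝔫 : Ideal (𝓞 K)} {j : b.support} {g : GK b K} (h : ∀ v : HeightOneSpectrum (𝓞 K), aI v 𝔫 ≠ 1 → ∃ p ∈ PJ b K j, ∃ k ∈ Kv b 𝔫 v, g = p * k) : FL.Chi b 𝔫 j g := by
  intro v
  by_cases h1 : aI v 𝔫 = 1
  · exact Chi_away b v h1 j g
  · exact h v h1

/-- **The local statement.** -/
theorem g1_loc {𝔫 : Ideal (𝓞 K)} (i : b.support) (z : GK b K) : ∃ c : K, (z ∈ Gv b v → c = 0) ∧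
    (∀ (r : K) (j : b.support), Ah b v (b1m b K i 1 * b1x b K (i : ι) r * z) j = Ah b v z j * (max (Ah b v z i) (av v (r + c))) ^ (-(b.cartanMatrix j i))) ∧
    (∀ r r' : K, FL.Chi b 𝔫 i (b1m b K i 1 * b1x b K (i : ι) r * z) → FL.Chi b 𝔫 i (b1m b K i 1 * b1x b K (i : ι) r' * z) →
      av v (r - r') ≤ aI v 𝔫 * max (Ah b v z i) (av v (r + c)) * max (Ah b v z i) (av v (r' + c)) / Ah b v z i) ∧
    ∀ r : K, FL.Chi b 𝔫 i z → FL.Chi b 𝔫 i (b1m b K i 1 * b1x b K (i : ι) r * z) → Ah b v z i ≤ aI v 𝔫 * max (Ah b v z i) (av v (r + c)) := by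
  obtain ⟨c, h1, h2, h3⟩ := loc (g1_nonarch v) i z
  obtain ⟨h4, h5⟩ := h3 (aI v 𝔫) (g1_aI_pos v 𝔫).le (g1_aI_le v 𝔫)
  refine ⟨c, fun h => h1 ((g1_Gv b v z).1 h), fun r j => ?_, fun r r' h h' => ?_, fun r h h' => ?_⟩
  · rw [g1_Ah, g1_Ah, g1_Ah]
    exact h2 r j
  · rw [g1_Ah]
    exact h4 r r' ((g1_Chi b 𝔫 i _).1 h v) ((g1_Chi b 𝔫 i _).1 h' v)
  · rw [g1_Ah]
    exact h5 r ((g1_Chi b 𝔫 i _).1 h v) ((g1_Chi b 𝔫 i _).1 h' v)

end

end Pool.Agent.Lib.L8.FI
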