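import Pool.Agent.Lib.L8.IG12
import Pool.Agent.Lib.L1S.L26
import Pool.Agent.Lib.L1S.L27
import Pool.Agent.Lib.L1S.L28
import Pool.Agent.Lib.L1S.L29

/-!
# FI: the local part of the finite intertwining integral (helper43): definitions

`K` is a field of characteristic `0` with a nonarchimedean absolute value `v`, `G(K) = GK b K` the split group. `g = u t k` with `u` unipotent upper, `t` diagonal and `k`, `k⁻¹` integral (`iwasawa` in FI/F2);
`Av v j g = |α_j(t)|`. `Chi v j ν g`: `g ∈ P_j(K) κ`, `κ` congruent to `1` modulo `ν` (`P_j` the maximal parabolic subgroup of `G` which does not contain the root group of `-α_j`).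
-/

namespace Pool.Agent.Lib.L8.FI

open Matrix Pool.Agent.Lib.L1S

noncomputable section

set_option linter.unusedSectionVars false

variable {ι M N : Type} [Fintype ι] [DecidableEq ι] [AddCommGroup M] [Module ℚ M] [AddCommGroup N] [Module ℚ N]
  {P : RootPairing ι ℚ M N} [P.IsCrystallographic] [P.IsReduced] [P.IsIrreducible] [P.IsRootSystem] {b : P.Base} {K : Type} [Field K] [CharZero K]

variable (b) in
/-- `x_β(t)` as an element of `G(K)`. -/
def fx (β : ι) (t : K) : GK b K := ⟨xG b β t, xG_mem b β t⟩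

variable (b K) in
/-- `n_i` as an element of `G(K)`. -/
def fn (i : b.support) : GK b K := ⟨mG b i (1 : Kˣ), mG_mem b i 1⟩

variable (b) in
/-- `α_i^∨(s)` as an element of `G(K)`. -/
def fh (i : b.support) (s : Kˣ) : GK b K := ⟨hG b i s, mul_mem (mG_mem b i s) (inv_mem (mG_mem b i 1))⟩

/-- `k` and `k⁻¹` are integral at `v`. -/
def Iv (v : AbsoluteValue K ℝ) (k : GK b K) : Prop := (∀ r c, v (k.1.1 r c) ≤ 1) ∧ ∀ r c, v ((k⁻¹).1.1 r c) ≤ 1

/-- `t` is diagonal. -/
def Tor (t : GK b K) : Prop := ∀ r c, r ≠ c → t.1.1 r c = 0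

/-- `t = ∏ α_j^∨(s_j)`. -/
def Tors (s : b.support → Kˣ) (t : GK b K) : Prop := t.1.1 = Matrix.diagonal fun r => ∏ j, (s j : K) ^ pj b j r

/-- `u` is unipotent upper. -/
def Uu (u : GK b K) : Prop := UTk b 1 u.1.1

/-- **The height** `A_j(v, g) = |α_j(t)|` for `g = u t k`. -/
def Av (v : AbsoluteValue K ℝ) (j : b.support) (g : GK b K) : ℝ :=
  sInf {x | ∃ u t k : GK b K, Uu u ∧ Tor t ∧ Iv v k ∧ g = u * t * k ∧ x = v (t.1.1 (Sum.inr (j : ι)) (Sum.inr (j : ι)))}

/-- `p ∈ P_j(K)`. -/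
def Pj (j : b.support) (p : GK b K) : Prop := ∀ r c, wq b r j < wq b c j → p.1.1 r c = 0

/-- `k` and `k⁻¹` are congruent to `1` modulo `ν`. -/
def Cg (v : AbsoluteValue K ℝ) (ν : ℝ) (k : GK b K) : Prop := (∀ r c, v ((k.1.1 - 1) r c) ≤ ν) ∧ ∀ r c, v (((k⁻¹).1.1 - 1) r c) ≤ ν

/-- **The level condition.** -/
def Chi (v : AbsoluteValue K ℝ) (j : b.support) (ν : ℝ) (g : GK b K) : Prop := ∃ p, Pj j p ∧ ∃ k, Cg v ν k ∧ g = p * k

/-- The congruence subgroup of the parabolic type. -/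
def PN (v : AbsoluteValue K ℝ) (j : b.support) (ν : ℝ) (k : GK b K) : Prop :=
  Iv v k ∧ (∀ r c, wq b r j < wq b c j → v (k.1.1 r c) ≤ ν) ∧ ∀ r c, wq b r j < wq b c j → v ((k⁻¹).1.1 r c) ≤ ν

end

end Pool.Agent.Lib.L8.FI
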