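import Pool.Agent.Lib.L8.FI.F0

/-!
# FI: basic facts
-/

namespace Pool.Agent.Lib.L8.FI

open Matrix Pool.Agent.Lib.L1S

noncomputable section

set_option linter.unusedSectionVars false

variable {ι M N : Type} [Fintype ι] [DecidableEq ι] [AddCommGroup M] [Module ℚ M] [AddCommGroup N] [Module ℚ N]
  {P : RootPairing ι ℚ M N} [P.IsCrystallographic] [P.IsReduced] [P.IsIrreducible] [P.IsRootSystem] {b : P.Base} {K : Type} [Field K] [CharZero K]

/-! ## The group `G(K)` -/

theorem f_mul (g h : GK b K) : (g * h).1.1 = g.1.1 * h.1.1 := rfl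

theorem f_one : (1 : GK b K).1.1 = 1 := rfl

theorem f_mi (g : GK b K) : g.1.1 * (g⁻¹).1.1 = 1 := by
  rw [← f_mul, mul_inv_cancel, f_one]

theorem f_im (g : GK b K) : (g⁻¹).1.1 * g.1.1 = 1 := by
  rw [← f_mul, inv_mul_cancel, f_one]

theorem f_ext {g h : GK b K} (e : g.1.1 = h.1.1) : g = h := Subtype.ext (Units.ext e)

theorem fx_val (β : ι) (t : K) : (fx b β t).1.1 = xx b β t := rfl

theorem fx_add (β : ι) (s t : K) : fx b β (s + t) = fx b β s * fx b β t := Subtype.ext (xG_add b β s t)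

theorem fx_zero (β : ι) : fx b β (0 : K) = 1 := Subtype.ext (xG_zero b β)

theorem fx_neg (β : ι) (t : K) : fx b β (-t) = (fx b β t)⁻¹ := Subtype.ext (xG_inv b β t).symm

theorem fh_val (i : b.support) (s : Kˣ) : (fh b i s).1.1 = tj b i (s : K) := hG_val b i s

theorem fn_x (i : b.support) (t : K) : fn b K i * fx b (i : ι) t = fx b (ng P i) (-t) * fn b K i := Subtype.ext (nG_x b i t)

theorem fn_y (i : b.support) (t : K) : fn b K i * fx b (ng P i) t = fx b (i : ι) (-t) * fn b K i := Subtype.ext (nG_y b i t)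

theorem fx_eq (i : b.support) (t : Kˣ) : fx b (i : ι) (t : K) = fx b (ng P i) ((t⁻¹ : Kˣ) : K) * fh b i t * fn b K i * fx b (ng P i) ((t⁻¹ : Kˣ) : K) :=
  Subtype.ext (xG_eq b i t)

theorem fn_h (i : b.support) (s : Kˣ) : fn b K i * fh b i s = fh b i s⁻¹ * fn b K i := Subtype.ext (hG_n b i s)

theorem fn_sq (i : b.support) : fn b K i * fn b K i = fh b i (-1) := Subtype.ext (hG_sq b i)

theorem fh_mul (i : b.support) (s t : Kˣ) : fh b i (s * t) = fh b i s * fh b i t := Subtype.ext (hG_mul b i s t)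

/-- `n_i x_i(t) = x_i(-1/t) α_i^∨(-1/t) x_(-i)(1/t)`. -/
theorem fn_fx (i : b.support) (t : Kˣ) : fn b K i * fx b (i : ι) (t : K) = fx b (i : ι) (-((t⁻¹ : Kˣ) : K)) * fh b i (-t⁻¹) * fx b (ng P i) ((t⁻¹ : Kˣ) : K) := by
  calc fn b K i * fx b (i : ι) (t : K)
      = (fn b K i * fx b (ng P i) ((t⁻¹ : Kˣ) : K)) * fh b i t * fn b K i * fx b (ng P i) ((t⁻¹ : Kˣ) : K) := by
        rw [fx_eq i t]
        simp only [mul_assoc]
    _ = fx b (i : ι) (-((t⁻¹ : Kˣ) : K)) * (fn b K i * fh b i t) * fn b K i * fx b (ng P i) ((t⁻¹ : Kˣ) : K) := by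
        rw [fn_y]
        simp only [mul_assoc]
    _ = fx b (i : ι) (-((t⁻¹ : Kˣ) : K)) * (fh b i t⁻¹ * (fn b K i * fn b K i)) * fx b (ng P i) ((t⁻¹ : Kˣ) : K) := by
        rw [fn_h]
        simp only [mul_assoc]
    _ = _ := by
        rw [fn_sq, ← fh_mul, mul_neg, mul_one]

theorem f_ht (i : b.support) : 0 < b.height (i : ι) := by
  rw [b.height_one_of_mem_support i.2]
  exact one_pos

theorem f_nmz (g : GK b K) : Nmz b g.1.1 (g⁻¹).1.1 := GQ_Nmz b g.2

/-! ## The unipotent group -/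

theorem Uu.one : Uu (1 : GK b K) := fun _ _ _ => rfl

theorem Uu.mul {u u' : GK b K} (hu : Uu u) (hu' : Uu u') : Uu (u * u') := UTk_mul b zero_le_one hu hu'

theorem Uu.inv {u : GK b K} (hu : Uu u) : Uu u⁻¹ := UTk_inv b le_rfl (f_mi u) hu

theorem Uu.uni {u : GK b K} (hu : Uu u) : Uni b u.1.1 := by
  obtain ⟨t, ht⟩ := prod_exists b (f_nmz u) hu
  rw [ht]
  exact PL_Uni b _ (fun β hβ => (posL_mem b β).1 hβ) t

theorem fx_Uu {β : ι} (hβ : 0 < b.height β) (t : K) : Uu (fx b β t) := UTk_mono (by omega) (xx_UTk b β hβ t)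

/-- The coordinate of the simple root `α_i`. -/
def fc (i : b.support) (u : GK b K) : K := u.1.1 (Sum.inl i) (Sum.inr (ng P i))

theorem fc_mul (i : b.support) {u u' : GK b K} (hu : Uu u) (hu' : Uu u') : fc i (u * u') = fc i u + fc i u' := c_add b _ _ hu hu' i

theorem fc_x (i : b.support) (t : K) : fc i (fx b (i : ι) t) = t := by
  have h1 := c_xx b (i : ι) (f_ht i) t i
  rw [if_pos rfl] at h1
  exact h1

theorem fn_conj (i : b.support) {u : GK b K} (hu : Uu u) (h0 : fc i u = 0) : Uu (fn b K i * u * (fn b K i)⁻¹) := m_conj b i 1 (f_nmz u) hu h0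

/-! ## The torus -/

theorem Tor.val {t : GK b K} (ht : Tor t) (A : Matrix (I b) (I b) K) (r c : I b) : (t.1.1 * A) r c = t.1.1 r r * A r c := by
  rw [Matrix.mul_apply, Finset.sum_eq_single r]
  · intro s _ hs
    rw [ht r s hs.symm, zero_mul]
  · intro h
    exact absurd (Finset.mem_univ r) h

theorem Tor.val' {t : GK b K} (ht : Tor t) (A : Matrix (I b) (I b) K) (r c : I b) : (A * t.1.1) r c = A r c * t.1.1 c c := by
  rw [Matrix.mul_apply, Finset.sum_eq_single c]
  · intro s _ hs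
    rw [ht s c hs, mul_zero]
  · intro h
    exact absurd (Finset.mem_univ c) h

theorem Tor.mul_inv {t : GK b K} (ht : Tor t) (r c : I b) : t.1.1 r r * (t⁻¹).1.1 r c = (1 : Matrix (I b) (I b) K) r c := by
  rw [← ht.val, f_mi]

theorem Tor.ne {t : GK b K} (ht : Tor t) (r : I b) : t.1.1 r r ≠ 0 := by
  intro h
  have h1 := ht.mul_inv r r
  rw [h, zero_mul, Matrix.one_apply_eq] at h1
  exact zero_ne_one h1

theorem Tor.inv {t : GK b K} (ht : Tor t) : Tor t⁻¹ := by
  intro r c hrc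
  have h1 := ht.mul_inv r c
  rw [Matrix.one_apply_ne hrc] at h1
  exact (mul_eq_zero.1 h1).resolve_left (ht.ne r)

theorem Tor.inv_val {t : GK b K} (ht : Tor t) (r : I b) : (t⁻¹).1.1 r r = (t.1.1 r r)⁻¹ := by
  have h1 := ht.mul_inv r r
  rw [Matrix.one_apply_eq] at h1
  exact eq_inv_of_mul_eq_one_right h1

theorem Tor.mul {t t' : GK b K} (ht : Tor t) (ht' : Tor t') : Tor (t * t') := by
  intro r c hrc
  rw [f_mul, ht.val, ht' r c hrc, mul_zero]

theorem Tor.mul_val {t t' : GK b K} (ht : Tor t) (r : I b) : (t * t').1.1 r r = t.1.1 r r * t'.1.1 r r := by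
  rw [f_mul, ht.val]

theorem Tor.one : Tor (1 : GK b K) := fun _ _ h => Matrix.one_apply_ne h

theorem Tor.conj_val {t : GK b K} (ht : Tor t) (u : GK b K) (r c : I b) : (t * u * t⁻¹).1.1 r c = t.1.1 r r * u.1.1 r c * (t.1.1 c c)⁻¹ := by
  rw [f_mul, ht.inv.val', f_mul, ht.val, ht.inv_val]

theorem Tor.conj_Uu {t u : GK b K} (ht : Tor t) (hu : Uu u) : Uu (t * u * t⁻¹) := by
  intro r c hrc
  rw [ht.conj_val, hu r c hrc]
  by_cases h : r = c
  · subst h
    rw [Matrix.one_apply_eq, mul_one, mul_inv_cancel₀ (ht.ne r)]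
  · rw [Matrix.one_apply_ne h, mul_zero, zero_mul]

theorem fh_Tor (i : b.support) (s : Kˣ) : Tor (fh b i s) := by
  intro r c hrc
  rw [fh_val, tj, Matrix.diagonal_apply_ne _ hrc]

theorem fh_diag (i : b.support) (s : Kˣ) (r : I b) : (fh b i s).1.1 r r = (s : K) ^ pj b i r := by
  rw [fh_val, tj, Matrix.diagonal_apply_eq]

/-! ## Integral elements -/

variable {v : AbsoluteValue K ℝ} (hv : IsNonarchimedean (v : K → ℝ))

include hv in
theorem v_sum_le {n : Type} (s : Finset n) (g : n → K) {B : ℝ} (hB : 0 ≤ B) (h : ∀ k ∈ s, v (g k) ≤ B) : v (∑ k ∈ s, g k) ≤ B := by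
  classical
  induction s using Finset.induction_on with
  | empty =>
    rw [Finset.sum_empty, map_zero]
    exact hB
  | insert a s ha ih =>
    rw [Finset.sum_insert ha]
    exact (hv _ _).trans (max_le (h a (Finset.mem_insert_self _ _)) (ih fun k hk => h k (Finset.mem_insert_of_mem hk)))

include hv in
theorem v_int (n : ℤ) : v (n : K) ≤ 1 := by
  have h1 : ∀ k : ℕ, v (k : K) ≤ 1 := by
    intro k
    induction k with
    | zero =>
      rw [Nat.cast_zero, map_zero]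
      exact zero_le_one
    | succ k ih =>
      rw [Nat.cast_succ]
      exact (hv _ _).trans (max_le ih (map_one v).le)
  obtain ⟨k, rfl | rfl⟩ := n.eq_nat_or_neg
  · rw [Int.cast_natCast]
    exact h1 k
  · rw [Int.cast_neg, Int.cast_natCast, v.map_neg]
    exact h1 k

include hv in
theorem v_mul_le {A B : Matrix (I b) (I b) K} (hA : ∀ r c, v (A r c) ≤ 1) (hB : ∀ r c, v (B r c) ≤ 1) (r c : I b) : v ((A * B) r c) ≤ 1 := by
  rw [Matrix.mul_apply]
  refine v_sum_le hv _ _ zero_le_one fun s _ => ?_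
  rw [map_mul]
  exact mul_le_one₀ (hA r s) (apply_nonneg v _) (hB s c)

include hv in
theorem Iv.mul {k l : GK b K} (hk : Iv v k) (hl : Iv v l) : Iv v (k * l) := by
  refine ⟨v_mul_le hv hk.1 hl.1, ?_⟩
  rw [_root_.mul_inv_rev]
  exact v_mul_le hv hl.2 hk.2

theorem Iv.inv {k : GK b K} (hk : Iv v k) : Iv v k⁻¹ := ⟨hk.2, by rw [inv_inv]; exact hk.1⟩

theorem Iv.one : Iv v (1 : GK b K) := by
  have h : ∀ r c, v ((1 : GK b K).1.1 r c) ≤ 1 := by
    intro r c
    rw [f_one]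
    by_cases h : r = c
    · subst h
      rw [Matrix.one_apply_eq, map_one]
    · rw [Matrix.one_apply_ne h, map_zero]
      exact zero_le_one
  exact ⟨h, by rw [inv_one]; exact h⟩

include hv in
theorem v_xx (β : ι) {t : K} (ht : v t ≤ 1) (r c : I b) : v (xx b β t r c) ≤ 1 := by
  have h1 : xx b β t r c = ∑ k ∈ Finset.range 4, t ^ k * ((dvp (E b β) k r c : ℤ) : K) := by
    unfold xx ex
    rw [Matrix.sum_apply]
    rfl
  rw [h1]
  refine v_sum_le hv _ _ zero_le_one fun k _ => ?_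
  rw [map_mul, map_pow]
  exact mul_le_one₀ (pow_le_one₀ (apply_nonneg v _) ht) (apply_nonneg v _) (v_int hv _)

include hv in
theorem fx_Iv (β : ι) {t : K} (ht : v t ≤ 1) : Iv v (fx b β t) := by
  refine ⟨v_xx hv β ht, ?_⟩
  rw [← fx_neg]
  exact v_xx hv β (by rw [v.map_neg]; exact ht)

include hv in
theorem fn_Iv (i : b.support) : Iv v (fn b K i) := by
  have e : fn b K i = fx b (i : ι) (1 : K) * fx b (ng P i) (-1 : K) * fx b (i : ι) (1 : K) := by
    refine Subtype.ext ?_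
    change mG b i (1 : Kˣ) = _
    rw [mG, inv_one]
    rfl
  rw [e]
  exact ((fx_Iv hv _ (map_one v).le).mul hv (fx_Iv hv _ (by rw [v.map_neg, map_one]))).mul hv (fx_Iv hv _ (map_one v).le)

theorem fh_Iv (i : b.support) {s : Kˣ} (hs : v (s : K) = 1) : Iv v (fh b i s) := by
  have key : ∀ s : Kˣ, v (s : K) = 1 → ∀ r c, v ((fh b i s).1.1 r c) ≤ 1 := by
    intro s hs r c
    by_cases h : r = c
    · subst h
      rw [fh_diag, map_zpow₀, hs, _root_.one_zpow]
    · rw [fh_Tor i s r c h, map_zero]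
      exact zero_le_one
  refine ⟨key s hs, ?_⟩
  have e : (fh b i s)⁻¹ = fh b i s⁻¹ := Subtype.ext (ig12_hinv b i s).symm
  rw [e]
  refine key _ ?_
  rw [Units.val_inv_eq_inv_val, map_inv₀, hs, inv_one]

end

end Pool.Agent.Lib.L8.FI
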