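import Pool.Agent.Lib.L8.FI.F1

/-!
# FI: the Iwasawa decomposition over `K` at a nonarchimedean absolute value
-/

namespace Pool.Agent.Lib.L8.FI

open Matrix Pool.Agent.Lib.L1S

noncomputable section

set_option linter.unusedSectionVars false

variable {ι M N : Type} [Fintype ι] [DecidableEq ι] [AddCommGroup M] [Module ℚ M] [AddCommGroup N] [Module ℚ N]
  {P : RootPairing ι ℚ M N} [P.IsCrystallographic] [P.IsReduced] [P.IsIrreducible] [P.IsRootSystem] {b : P.Base} {K : Type} [Field K] [CharZero K]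

/-! ## Torus elements `∏ α_j^∨(s_j)` -/

/-- The character value. -/
def ch (s : b.support → Kˣ) (r : I b) : K := ∏ j, (s j : K) ^ pj b j r

theorem ch_ne (s : b.support → Kˣ) (r : I b) : ch s r ≠ 0 := Finset.prod_ne_zero_iff.2 fun j _ => zpow_ne_zero _ (s j).ne_zero

theorem ch_wt (s : b.support → Kˣ) {r c : I b} (h : wt b r = wt b c) : ch s r = ch s c := by
  unfold ch
  refine Finset.prod_congr rfl fun j _ => ?_
  have h1 : ((pj b j r : ℤ) : ℚ) = ((pj b j c : ℤ) : ℚ) := by rw [de_pj, de_pj, h]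
  rw [(by exact_mod_cast h1 : pj b j r = pj b j c)]

theorem ch_add (s : b.support → Kˣ) {r c : I b} {β : ι} (h : wt b r = wt b c + P.root β) : ch s r = ch s c * ch s (Sum.inr β) := by
  unfold ch
  rw [← Finset.prod_mul_distrib]
  refine Finset.prod_congr rfl fun j _ => ?_
  have h1 : ((pj b j r : ℤ) : ℚ) = ((pj b j c : ℤ) : ℚ) + ((pj b j (Sum.inr β) : ℤ) : ℚ) := by
    rw [de_pj, de_pj, de_pj, h, map_add]
    rfl
  rw [(by exact_mod_cast h1 : pj b j r = pj b j c + pj b j (Sum.inr β)), zpow_add₀ (s j).ne_zero]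

theorem ch_inl (s : b.support → Kˣ) (i : b.support) : ch s (Sum.inl i) = 1 := by
  unfold ch
  exact Finset.prod_eq_one fun j _ => zpow_zero _

theorem Tors.val {s : b.support → Kˣ} {t : GK b K} (h : Tors s t) (r : I b) : t.1.1 r r = ch s r := by
  rw [h, Matrix.diagonal_apply_eq]
  rfl

theorem Tors.tor {s : b.support → Kˣ} {t : GK b K} (h : Tors s t) : Tor t := by
  intro r c hrc
  rw [h, Matrix.diagonal_apply_ne _ hrc]

theorem Tors.one : Tors (fun _ => 1) (1 : GK b K) := by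
  unfold Tors
  rw [f_one, ← Matrix.diagonal_one]
  congr 1
  funext r
  exact (Finset.prod_eq_one fun j _ => by rw [Units.val_one, _root_.one_zpow]).symm

theorem Tors.mul {s s' : b.support → Kˣ} {t t' : GK b K} (h : Tors s t) (h' : Tors s' t') : Tors (fun j => s j * s' j) (t * t') := by
  unfold Tors
  rw [f_mul, h, h', Matrix.diagonal_mul_diagonal]
  congr 1
  funext r
  rw [← Finset.prod_mul_distrib]
  exact Finset.prod_congr rfl fun j _ => by rw [Units.val_mul, mul_zpow]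

theorem fh_Tors (i : b.support) (s : Kˣ) : Tors (fun j => if j = i then s else 1) (fh b i s) := by
  unfold Tors
  rw [fh_val, tj]
  congr 1
  funext r
  rw [Finset.prod_eq_single i]
  · simp only [if_pos]
  · intro j _ hj
    simp only [if_neg hj, Units.val_one, _root_.one_zpow]
  · intro h
    exact absurd (Finset.mem_univ i) h

/-- `t x_β(r) t⁻¹ = x_β(β(t) r)`. -/
theorem Tors.conj_x {s : b.support → Kˣ} {t : GK b K} (h : Tors s t) (β : ι) (a : K) : t * fx b β a = fx b β (ch s (Sum.inr β) * a) * t := by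
  refine f_ext ?_
  rw [f_mul, f_mul, fx_val, fx_val]
  refine (DP_E b β).conj (DP_E b β) t.1.1 (ch s (Sum.inr β)) a ?_
  ext r c
  rw [h.tor.val, h.tor.val', h.val, h.val, Matrix.smul_apply, smul_eq_mul]
  by_cases h0 : toA K (E b β) r c = 0
  · rw [h0]
    ring
  · have h2 : E b β r c ≠ 0 := by
      intro h0'
      apply h0
      change ((E b β r c : ℤ) : K) = 0
      rw [h0', Int.cast_zero]
    rw [ch_add s (hasWt_E b β r c h2)]
    ring

/-- The coordinates of `n_i t n_i⁻¹`. -/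
def sn (i : b.support) (s : b.support → Kˣ) : b.support → Kˣ := fun j => if j = i then s i * (Units.mk0 _ (ch_ne s (Sum.inr (i : ι))))⁻¹ else s j

theorem ch_sn (i : b.support) (s : b.support → Kˣ) (r : I b) : ch (sn i s) r = ch s r * (ch s (Sum.inr (i : ι))) ^ (-pj b i r) := by
  unfold ch
  rw [← Finset.mul_prod_erase Finset.univ _ (Finset.mem_univ i), ← Finset.mul_prod_erase Finset.univ (fun j => (s j : K) ^ pj b j r) (Finset.mem_univ i)]
  have h1 : ∏ j ∈ Finset.univ.erase i, ((sn i s j : Kˣ) : K) ^ pj b j r = ∏ j ∈ Finset.univ.erase i, (s j : K) ^ pj b j r := by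
    refine Finset.prod_congr rfl fun j hj => ?_
    rw [sn, if_neg (Finset.ne_of_mem_erase hj)]
  rw [h1, sn, if_pos rfl, Units.val_mul, Units.val_inv_eq_inv_val, Units.val_mk0, mul_zpow, _root_.inv_zpow, _root_.zpow_neg]
  unfold ch
  ring

theorem ch_refl (i : b.support) (s : b.support → Kˣ) {r c : I b} (h : wt b r = P.reflection i (wt b c)) : ch (sn i s) r = ch s c := by
  have h1 : ∀ j, ((pj b j r : ℤ) : ℚ) = ((pj b j c : ℤ) : ℚ) - ((pj b i c : ℤ) : ℚ) * ((pj b j (Sum.inr (i : ι)) : ℤ) : ℚ) := by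
    intro j
    rw [de_pj, de_pj, de_pj, de_pj, h, P.reflection_apply, map_sub, map_smul, smul_eq_mul]
    rfl
  have h2 : ∀ j, pj b j r = pj b j c - pj b i c * pj b j (Sum.inr (i : ι)) := fun j => by exact_mod_cast h1 j
  have h3 : ch s r = ch s c * (ch s (Sum.inr (i : ι))) ^ (-pj b i c) := by
    unfold ch
    rw [← Finset.prod_zpow, ← Finset.prod_mul_distrib]
    refine Finset.prod_congr rfl fun j _ => ?_
    rw [h2 j, ← _root_.zpow_mul, ← zpow_add₀ (s j).ne_zero]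
    congr 1
    ring
  have h4 : pj b i r = -pj b i c := de_pj_refl h
  rw [ch_sn, h3, h4, neg_neg, mul_assoc, ← zpow_add₀ (ch_ne s _), neg_add_cancel, zpow_zero, mul_one]

/-- `n_i t n_i⁻¹`. -/
theorem Tors.conj_n {s : b.support → Kˣ} {t : GK b K} (h : Tors s t) (i : b.support) : Tors (sn i s) (fn b K i * t * (fn b K i)⁻¹) := by
  have key : fn b K i * t = fn b K i * t * (fn b K i)⁻¹ * fn b K i := by group
  have e : (fn b K i).1.1 * t.1.1 = Matrix.diagonal (ch (sn i s)) * (fn b K i).1.1 := by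
    ext r c
    rw [h.tor.val', Matrix.diagonal_mul, h.val]
    by_cases h0 : (fn b K i).1.1 r c = 0
    · rw [h0]
      ring
    · rw [ch_refl i s (mG_over b i (1 : Kˣ) r c h0)]
      ring
  unfold Tors
  have e2 : (fn b K i * t * (fn b K i)⁻¹).1.1 = (fn b K i).1.1 * t.1.1 * ((fn b K i)⁻¹).1.1 := rfl
  rw [e2, e, Matrix.mul_assoc, f_mi, Matrix.mul_one]
  rfl

/-! ## The decomposition -/

variable (v : AbsoluteValue K ℝ)

/-- `g ∈ U T K`. -/
def UTK (g : GK b K) : Prop := ∃ u s t k, Uu u ∧ Tors s t ∧ Iv v k ∧ g = u * t * k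

variable {v}

theorem UTK_U {u g : GK b K} (hu : Uu u) (h : UTK v g) : UTK v (u * g) := by
  obtain ⟨u', s, t, k, hu', ht, hk, rfl⟩ := h
  exact ⟨u * u', s, t, k, hu.mul hu', ht, hk, by group⟩

theorem UTK_T {s : b.support → Kˣ} {t g : GK b K} (ht : Tors s t) (h : UTK v g) : UTK v (t * g) := by
  obtain ⟨u, s', t', k, hu, ht', hk, rfl⟩ := h
  exact ⟨t * u * t⁻¹, _, t * t', k, ht.tor.conj_Uu hu, ht.mul ht', hk, by group⟩

/-- The decomposition `u = u'' x_i(r)`, `u'' ∈ U`, `c_i(u'') = 0`. -/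
theorem u_dec (i : b.support) {u : GK b K} (hu : Uu u) : Uu (u * fx b (i : ι) (-fc i u)) ∧ fc i (u * fx b (i : ι) (-fc i u)) = 0 := by
  have h1 : Uu (fx b (i : ι) (-fc i u)) := fx_Uu (f_ht i) _
  refine ⟨hu.mul h1, ?_⟩
  rw [fc_mul i hu h1, fc_x, add_neg_cancel]

theorem fc_conj (i : b.support) {u : GK b K} (hu : Uu u) (h0 : fc i u = 0) (r : K) : Uu (fx b (i : ι) r * u * (fx b (i : ι) r)⁻¹) ∧ fc i (fx b (i : ι) r * u * (fx b (i : ι) r)⁻¹) = 0 := by
  rw [← fx_neg]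
  have h1 : ∀ s : K, Uu (fx b (i : ι) s) := fun s => fx_Uu (f_ht i) s
  refine ⟨((h1 r).mul hu).mul (h1 _), ?_⟩
  rw [fc_mul i ((h1 r).mul hu) (h1 _), fc_mul i (h1 r) hu, fc_x, fc_x, h0]
  ring

/-- **The rank one step.** For `z = u t k` and `r`: `n_i x_i(r) z = u' t' n_i x_i(ρ) k` with `t' = n_i t n_i⁻¹`, `ρ = (r + c_i(u)) / α_i(t)`. -/
theorem rk_step (i : b.support) {u t k : GK b K} {s : b.support → Kˣ} (hu : Uu u) (ht : Tors s t) (r : K) :
    ∃ u', Uu u' ∧ fn b K i * fx b (i : ι) r * (u * t * k) = u' * (fn b K i * t * (fn b K i)⁻¹) * (fn b K i * fx b (i : ι) ((r + fc i u) / ch s (Sum.inr (i : ι)))) * k := by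
  obtain ⟨h1, h2⟩ := u_dec i hu
  obtain ⟨h3, h4⟩ := fc_conj i h1 h2 r
  have h5 := fn_conj i h3 h4
  refine ⟨_, h5, ?_⟩
  have e1 : fx b (i : ι) (r + fc i u) * t = t * fx b (i : ι) ((r + fc i u) / ch s (Sum.inr (i : ι))) := by
    rw [ht.conj_x, mul_div_cancel₀ _ (ch_ne s _)]
  have e2 : fx b (i : ι) (r + fc i u) = fx b (i : ι) r * fx b (i : ι) (fc i u) := fx_add _ _ _
  have e3 : u = u * fx b (i : ι) (-fc i u) * fx b (i : ι) (fc i u) := by
    rw [mul_assoc, ← fx_add, neg_add_cancel, fx_zero, mul_one]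
  calc fn b K i * fx b (i : ι) r * (u * t * k)
      = fn b K i * (fx b (i : ι) r * (u * fx b (i : ι) (-fc i u)) * (fx b (i : ι) r)⁻¹) * (fx b (i : ι) r * fx b (i : ι) (fc i u) * t) * k := by
        conv_lhs => rw [e3]
        group
    _ = fn b K i * (fx b (i : ι) r * (u * fx b (i : ι) (-fc i u)) * (fx b (i : ι) r)⁻¹) * (t * fx b (i : ι) ((r + fc i u) / ch s (Sum.inr (i : ι)))) * k := by
        rw [← e2, e1]
    _ = _ := by group

variable (hv : IsNonarchimedean (v : K → ℝ))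

include hv in
theorem UTK_n (i : b.support) {g : GK b K} (h : UTK v g) : UTK v (fn b K i * g) := by
  obtain ⟨u, s, t, k, hu, ht, hk, rfl⟩ := h
  obtain ⟨u', hu', e⟩ := rk_step i (k := k) hu ht 0
  rw [fx_zero, mul_one] at e
  rw [e]
  set ρ : K := (0 + fc i u) / ch s (Sum.inr (i : ι)) with hρ
  by_cases h1 : v ρ ≤ 1
  · exact ⟨u', _, _, fn b K i * fx b (i : ι) ρ * k, hu', ht.conj_n i, ((fn_Iv hv i).mul hv (fx_Iv hv _ h1)).mul hv hk, by group⟩
  · have h0 : ρ ≠ 0 := by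
      intro h0
      rw [h0, map_zero] at h1
      exact h1 zero_le_one
    have h2 := fn_fx (b := b) i (Units.mk0 ρ h0)
    rw [Units.val_mk0] at h2
    rw [h2]
    have h3 : UTK v (fx b (i : ι) (-(((Units.mk0 ρ h0)⁻¹ : Kˣ) : K)) * (fh b i (-(Units.mk0 ρ h0)⁻¹) * (fx b (ng P i) (((Units.mk0 ρ h0)⁻¹ : Kˣ) : K) * k))) := by
      refine UTK_U (fx_Uu (f_ht i) _) (UTK_T (fh_Tors i _) ⟨1, _, 1, _, Uu.one, Tors.one, (fx_Iv hv _ ?_).mul hv hk, by rw [one_mul, one_mul]⟩)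
      rw [Units.val_inv_eq_inv_val, Units.val_mk0, map_inv₀]
      exact inv_le_one_of_one_le₀ (not_le.1 h1).le
    have h4 := UTK_U hu' (UTK_T (ht.conj_n i) h3)
    have e3 : u' * (fn b K i * t * (fn b K i)⁻¹) * (fx b (i : ι) (-(((Units.mk0 ρ h0)⁻¹ : Kˣ) : K)) * fh b i (-(Units.mk0 ρ h0)⁻¹) * fx b (ng P i) (((Units.mk0 ρ h0)⁻¹ : Kˣ) : K)) * k
        = u' * (fn b K i * t * (fn b K i)⁻¹ * (fx b (i : ι) (-(((Units.mk0 ρ h0)⁻¹ : Kˣ) : K)) * (fh b i (-(Units.mk0 ρ h0)⁻¹) * (fx b (ng P i) (((Units.mk0 ρ h0)⁻¹ : Kˣ) : K) * k)))) := by group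
    rw [e3]
    exact h4

include hv in
theorem UTK_n' (i : b.support) {g : GK b K} (h : UTK v g) : UTK v ((fn b K i)⁻¹ * g) := by
  have e : (fn b K i)⁻¹ = fh b i (-1) * fn b K i := by
    rw [← fn_sq, inv_eq_iff_mul_eq_one, ← mul_assoc, ← mul_assoc, fn_sq, mul_assoc, fn_sq, ← fh_mul]
    have e1 : (-1 : Kˣ) * -1 = 1 := by rw [neg_mul_neg, one_mul]
    rw [e1]
    exact Subtype.ext (ig12_h1 b i)
  rw [e, mul_assoc]
  exact UTK_T (fh_Tors i _) (UTK_n hv i h)

include hv in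
/-- **The Iwasawa decomposition.** -/
theorem iwasawa (g : GK b K) : UTK v g := by
  have key : ∀ x : GL (I b) K, x ∈ GQ b K → ∀ hx : x ∈ GQ b K, ∀ h : GK b K, UTK v h → UTK v ((⟨x, hx⟩ : GK b K) * h) ∧ UTK v ((⟨x, hx⟩ : GK b K)⁻¹ * h) := by
    intro x hx
    rw [GQ_eq] at hx
    induction hx using Subgroup.closure_induction with
    | mem x hx =>
      obtain ⟨i, t, rfl | rfl⟩ := hx
      · intro hx h hh
        have e1 : (⟨xG b (i : ι) t, hx⟩ : GK b K) = fx b (i : ι) t := rfl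
        rw [e1, ← fx_neg]
        exact ⟨UTK_U (fx_Uu (f_ht i) _) hh, UTK_U (fx_Uu (f_ht i) _) hh⟩
      · intro hx h hh
        have e1 : (⟨xG b (ng P i) t, hx⟩ : GK b K) = fx b (ng P i) t := rfl
        have e2 : ∀ s : K, fx b (ng P i) s = fn b K i * fx b (i : ι) (-s) * (fn b K i)⁻¹ := fun s => by
          rw [fn_x, neg_neg]
          group
        have e3 : ∀ s : K, UTK v (fx b (ng P i) s * h) := fun s => by
          rw [e2, mul_assoc, mul_assoc]
          exact UTK_n hv i (UTK_U (fx_Uu (f_ht i) _) (UTK_n' hv i hh))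
        rw [e1, ← fx_neg]
        exact ⟨e3 t, e3 (-t)⟩
    | one =>
      intro hx h hh
      have e1 : (⟨1, hx⟩ : GK b K) = 1 := rfl
      rw [e1, inv_one, one_mul]
      exact ⟨hh, hh⟩
    | mul x y hx hy ihx ihy =>
      intro hxy h hh
      rw [← GQ_eq] at hx hy
      have e1 : (⟨x * y, hxy⟩ : GK b K) = ⟨x, hx⟩ * ⟨y, hy⟩ := rfl
      rw [e1, _root_.mul_inv_rev, mul_assoc, mul_assoc]
      exact ⟨(ihx hx _ (ihy hy _ hh).1).1, (ihy hy _ (ihx hx _ hh).2).2⟩
    | inv x hx ihx =>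
      intro hxi h hh
      rw [← GQ_eq] at hx
      have e1 : (⟨x⁻¹, hxi⟩ : GK b K) = (⟨x, hx⟩ : GK b K)⁻¹ := rfl
      rw [e1, inv_inv]
      exact ⟨(ihx hx _ hh).2, (ihx hx _ hh).1⟩
  have h1 : UTK v (1 : GK b K) := ⟨1, _, 1, 1, Uu.one, Tors.one, Iv.one, by rw [one_mul, one_mul]⟩
  have h2 := (key g.1 g.2 g.2 1 h1).1
  rw [mul_one] at h2
  exact h2

end

end Pool.Agent.Lib.L8.FI
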