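import Pool.Agent.Lib.L8.FI.F2

/-!
# FI: the heights
-/

namespace Pool.Agent.Lib.L8.FI

open Matrix Pool.Agent.Lib.L1S

noncomputable section

set_option linter.unusedSectionVars false

variable {ι M N : Type} [Fintype ι] [DecidableEq ι] [AddCommGroup M] [Module ℚ M] [AddCommGroup N] [Module ℚ N]
  {P : RootPairing ι ℚ M N} [P.IsCrystallographic] [P.IsReduced] [P.IsIrreducible] [P.IsRootSystem] {b : P.Base} {K : Type} [Field K] [CharZero K]
  {v : AbsoluteValue K ℝ} (hv : IsNonarchimedean (v : K → ℝ))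

include hv in
theorem diag_le {u u' t t' k k' : GK b K} (hu : Uu u) (hu' : Uu u') (ht : Tor t) (ht' : Tor t') (hk : Iv v k) (hk' : Iv v k') (e : u * t * k = u' * t' * k') (r : I b) :
    v (t'.1.1 r r) ≤ v (t.1.1 r r) := by
  have h1 : t⁻¹ * (u⁻¹ * u') * t' = k * k'⁻¹ := by
    have h2 : u⁻¹ * (u * t * k) = u⁻¹ * (u' * t' * k') := by rw [e]
    calc t⁻¹ * (u⁻¹ * u') * t' = t⁻¹ * (u⁻¹ * (u' * t' * k')) * k'⁻¹ := by group
      _ = t⁻¹ * (u⁻¹ * (u * t * k)) * k'⁻¹ := by rw [h2]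
      _ = _ := by group
  have h3 : Iv v (k * k'⁻¹) := hk.mul hv hk'.inv
  have h4 := h3.1 r r
  rw [← h1] at h4
  have h5 : (t⁻¹ * (u⁻¹ * u') * t').1.1 r r = (t.1.1 r r)⁻¹ * t'.1.1 r r := by
    rw [f_mul, ht'.val', f_mul, ht.inv.val, ht.inv_val, (hu.inv.mul hu') r r (by omega), Matrix.one_apply_eq, mul_one]
  rw [h5, map_mul, map_inv₀] at h4
  have h6 : 0 < v (t.1.1 r r) := v.pos (ht.ne r)
  rw [inv_mul_le_iff₀ h6, mul_one] at h4
  exact h4

include hv in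
/-- **Uniqueness.** -/
theorem diag_eq {u u' t t' k k' : GK b K} (hu : Uu u) (hu' : Uu u') (ht : Tor t) (ht' : Tor t') (hk : Iv v k) (hk' : Iv v k') (e : u * t * k = u' * t' * k') (r : I b) :
    v (t'.1.1 r r) = v (t.1.1 r r) :=
  le_antisymm (diag_le hv hu hu' ht ht' hk hk' e r) (diag_le hv hu' hu ht' ht hk' hk e.symm r)

include hv in
theorem Av_eq {u t k : GK b K} (hu : Uu u) (ht : Tor t) (hk : Iv v k) (j : b.support) : Av v j (u * t * k) = v (t.1.1 (Sum.inr (j : ι)) (Sum.inr (j : ι))) := by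
  have h1 : {x | ∃ u' t' k' : GK b K, Uu u' ∧ Tor t' ∧ Iv v k' ∧ u * t * k = u' * t' * k' ∧ x = v (t'.1.1 (Sum.inr (j : ι)) (Sum.inr (j : ι)))} = {v (t.1.1 (Sum.inr (j : ι)) (Sum.inr (j : ι)))} := by
    ext x
    constructor
    · rintro ⟨u', t', k', hu', ht', hk', e, rfl⟩
      exact diag_eq hv hu hu' ht ht' hk hk' e _
    · rintro rfl
      exact ⟨u, t, k, hu, ht, hk, rfl, rfl⟩
  unfold Av
  rw [h1, csInf_singleton]

include hv in
theorem Av_pos (j : b.support) (g : GK b K) : 0 < Av v j g := by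
  obtain ⟨u, s, t, k, hu, ht, hk, rfl⟩ := iwasawa hv g
  rw [Av_eq hv hu ht.tor hk]
  exact v.pos (ht.tor.ne _)

include hv in
theorem Av_val (j : b.support) (g : GK b K) : ∃ x : K, x ≠ 0 ∧ Av v j g = v x := by
  obtain ⟨u, s, t, k, hu, ht, hk, rfl⟩ := iwasawa hv g
  exact ⟨_, ht.tor.ne _, Av_eq hv hu ht.tor hk j⟩

include hv in
theorem Av_Iv {k : GK b K} (hk : Iv v k) (j : b.support) : Av v j k = 1 := by
  have h1 := Av_eq hv Uu.one Tor.one hk j
  rw [one_mul, one_mul, f_one, Matrix.one_apply_eq, map_one] at h1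
  exact h1

include hv in
theorem Av_U {u : GK b K} (hu : Uu u) (g : GK b K) (j : b.support) : Av v j (u * g) = Av v j g := by
  obtain ⟨u', s, t, k, hu', ht, hk, rfl⟩ := iwasawa hv g
  rw [Av_eq hv hu' ht.tor hk, ← mul_assoc, ← mul_assoc, Av_eq hv (hu.mul hu') ht.tor hk]

include hv in
theorem Av_T {t : GK b K} (ht : Tor t) (g : GK b K) (j : b.support) : Av v j (t * g) = v (t.1.1 (Sum.inr (j : ι)) (Sum.inr (j : ι))) * Av v j g := by
  obtain ⟨u', s, t', k, hu', ht', hk, rfl⟩ := iwasawa hv g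
  have e : t * (u' * t' * k) = t * u' * t⁻¹ * (t * t') * k := by group
  rw [Av_eq hv hu' ht'.tor hk, e, Av_eq hv (ht.conj_Uu hu') (ht.mul ht'.tor) hk, ht.mul_val, map_mul]

include hv in
theorem Av_K {k : GK b K} (hk : Iv v k) (g : GK b K) (j : b.support) : Av v j (g * k) = Av v j g := by
  obtain ⟨u', s, t', k', hu', ht', hk', rfl⟩ := iwasawa hv g
  rw [Av_eq hv hu' ht'.tor hk', mul_assoc (u' * t'), Av_eq hv hu' ht'.tor (hk'.mul hv hk)]

/-! ## Rank one -/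

/-- The element `κ` with `n_i x_i(ρ) ∈ B κ`. -/
def kap (v : AbsoluteValue K ℝ) (i : b.support) (ρ : K) : GK b K := by
  classical
  exact if v ρ ≤ 1 then fn b K i * fx b (i : ι) ρ else fx b (ng P i) ρ⁻¹

include hv in
theorem kap_Iv (i : b.support) (ρ : K) : Iv v (kap (b := b) v i ρ) := by
  unfold kap
  split_ifs with h
  · exact (fn_Iv hv i).mul hv (fx_Iv hv _ h)
  · refine fx_Iv hv _ ?_
    rw [map_inv₀]
    exact inv_le_one_of_one_le₀ (not_le.1 h).le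

/-- `n_i x_i(ρ) = u t κ`. -/
theorem kap_dec (i : b.support) (ρ : K) : ∃ (u : GK b K) (s : b.support → Kˣ) (t : GK b K), Uu u ∧ Tors s t ∧ fn b K i * fx b (i : ι) ρ = u * t * kap v i ρ ∧
    ∀ j : b.support, v (ch s (Sum.inr (j : ι))) = (max 1 (v ρ)) ^ (-(P.pairingIn ℤ j i)) := by
  by_cases h : v ρ ≤ 1
  · refine ⟨1, _, 1, Uu.one, Tors.one, ?_, fun j => ?_⟩
    · unfold kap
      rw [if_pos h, one_mul, one_mul]
    · rw [max_eq_left h, _root_.one_zpow]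
      unfold ch
      rw [Finset.prod_eq_one fun j _ => by rw [Units.val_one, _root_.one_zpow], map_one]
  · have h0 : ρ ≠ 0 := by
      intro h0
      rw [h0, map_zero] at h
      exact h zero_le_one
    refine ⟨fx b (i : ι) (-(((Units.mk0 ρ h0)⁻¹ : Kˣ) : K)), _, fh b i (-(Units.mk0 ρ h0)⁻¹), fx_Uu (f_ht i) _, fh_Tors i (-(Units.mk0 ρ h0)⁻¹), ?_, fun j => ?_⟩
    · have h2 := fn_fx (b := b) i (Units.mk0 ρ h0)
      rw [Units.val_mk0] at h2
      rw [h2]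
      unfold kap
      rw [if_neg h, Units.val_inv_eq_inv_val, Units.val_mk0]
    · have h3 := (fh_Tors i (-(Units.mk0 ρ h0)⁻¹) : Tors _ (fh b i (-(Units.mk0 ρ h0)⁻¹))).val (Sum.inr (j : ι))
      rw [← h3, fh_diag, map_zpow₀, Units.val_neg, v.map_neg, Units.val_inv_eq_inv_val, Units.val_mk0, map_inv₀, _root_.inv_zpow, ← _root_.zpow_neg, max_eq_right (not_le.1 h).le]
      rfl

include hv in
/-- **Rank one.** For `z = u t k`, `χ = α_i(t)`, `r₀ = c_i(u)` and all `r`, with `ρ = (r + r₀) / χ`: `n_i x_i(r) z ∈ U T κ(ρ) k` and `A_j(n_i x_i(r) z) = A_j(z) max(A_i(z), |r + r₀|) ^ (-⟨α_j, α_i^∨⟩)`. -/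
theorem rank_one (i : b.support) {u t k : GK b K} {s : b.support → Kˣ} (hu : Uu u) (ht : Tors s t) (hk : Iv v k) (r : K) :
    (∃ u' t' : GK b K, Uu u' ∧ Tor t' ∧ fn b K i * fx b (i : ι) r * (u * t * k) = u' * t' * (kap v i ((r + fc i u) / ch s (Sum.inr (i : ι))) * k)) ∧
      ∀ j : b.support, Av v j (fn b K i * fx b (i : ι) r * (u * t * k)) = Av v j (u * t * k) * (max (Av v i (u * t * k)) (v (r + fc i u))) ^ (-(P.pairingIn ℤ j i)) := by
  have hA : ∀ j : b.support, Av v j (u * t * k) = v (ch s (Sum.inr (j : ι))) := fun j => by rw [Av_eq hv hu ht.tor hk, ht.val]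
  obtain ⟨u', hu', e⟩ := rk_step i (k := k) hu ht r
  obtain ⟨u₂, s₂, t₂, hu₂, ht₂, e₂, hc⟩ := kap_dec (b := b) (v := v) i ((r + fc i u) / ch s (Sum.inr (i : ι)))
  have hn := ht.conj_n i
  have e₃ : fn b K i * fx b (i : ι) r * (u * t * k) = u' * ((fn b K i * t * (fn b K i)⁻¹) * u₂ * (fn b K i * t * (fn b K i)⁻¹)⁻¹) * ((fn b K i * t * (fn b K i)⁻¹) * t₂) *
      (kap v i ((r + fc i u) / ch s (Sum.inr (i : ι))) * k) := by
    rw [e, e₂]
    group
  have hu₃ : Uu (u' * ((fn b K i * t * (fn b K i)⁻¹) * u₂ * (fn b K i * t * (fn b K i)⁻¹)⁻¹)) := hu'.mul (hn.tor.conj_Uu hu₂)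
  have ht₃ := hn.mul ht₂
  refine ⟨⟨_, _, hu₃, ht₃.tor, e₃⟩, fun j => ?_⟩
  have e₅ : pj b i (Sum.inr (j : ι)) = P.pairingIn ℤ j i := rfl
  rw [e₃, Av_eq hv hu₃ ht₃.tor ((kap_Iv hv i _).mul hv hk), hn.tor.mul_val, hn.val, ht₂.val, map_mul, hc j, ch_sn, map_mul, map_zpow₀, hA j, hA i, mul_assoc, e₅, ← _root_.mul_zpow]
  have hχ : 0 < v (ch s (Sum.inr (i : ι))) := v.pos (ch_ne s _)
  have e₄ : v (ch s (Sum.inr (i : ι))) * max 1 (v ((r + fc i u) / ch s (Sum.inr (i : ι)))) = max (v (ch s (Sum.inr (i : ι)))) (v (r + fc i u)) := by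
    rw [mul_max_of_nonneg _ _ hχ.le, mul_one, map_div₀, mul_div_cancel₀ _ hχ.ne']
  rw [e₄]

end

end Pool.Agent.Lib.L8.FI
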