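import Pool.Agent.Lib.L8.FI.F3

/-!
# FI: the level condition
-/

namespace Pool.Agent.Lib.L8.FI

open Matrix Pool.Agent.Lib.L1S

noncomputable section

set_option linter.unusedSectionVars false

variable {ι M N : Type} [Fintype ι] [DecidableEq ι] [AddCommGroup M] [Module ℚ M] [AddCommGroup N] [Module ℚ N]
  {P : RootPairing ι ℚ M N} [P.IsCrystallographic] [P.IsReduced] [P.IsIrreducible] [P.IsRootSystem] {b : P.Base} {K : Type} [Field K] [CharZero K]

/-! ## The parabolic groups `P_j(K)` -/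

theorem Pj_iff (j : b.support) (p : GK b K) : Pj j p ↔ p.1.1.BlockTriangular fun r => -wq b r j := by
  constructor
  · intro h r c hrc
    exact h r c (neg_lt_neg_iff.1 hrc)
  · intro h r c hrc
    exact h (neg_lt_neg hrc)

theorem Pj.mul {j : b.support} {p q : GK b K} (hp : Pj j p) (hq : Pj j q) : Pj j (p * q) := by
  rw [Pj_iff] at hp hq ⊢
  exact hp.mul hq

theorem Pj.inv {j : b.support} {p : GK b K} (hp : Pj j p) : Pj j p⁻¹ := by
  rw [Pj_iff] at hp ⊢
  have e : (p⁻¹).1.1 = (p.1.1)⁻¹ := (Matrix.inv_eq_right_inv (f_mi p)).symm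
  have : Invertible p.1.1 := ⟨(p⁻¹).1.1, f_im p, f_mi p⟩
  rw [e]
  exact Matrix.blockTriangular_inv_of_blockTriangular hp

theorem Pj.one (j : b.support) : Pj j (1 : GK b K) := fun r c hrc => Matrix.one_apply_ne fun e => by
  subst e
  exact lt_irrefl _ hrc

theorem Uu.toPj {u : GK b K} (hu : Uu u) (j : b.support) : Pj j u := by
  intro r c hrc
  rcases hu.uni r c with h | h
  · rw [h]
    exact Matrix.one_apply_ne fun e => by
      subst e
      exact lt_irrefl _ hrc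
  · exact absurd (h.2 j) (not_le.2 hrc)

theorem Tor.toPj {t : GK b K} (ht : Tor t) (j : b.support) : Pj j t := fun r c hrc => ht r c fun e => by
  subst e
  exact lt_irrefl _ hrc

theorem wq_add {r c : I b} {β : ι} {k : ℕ} (h : wt b r = wt b c + (k : ℚ) • P.root β) (j : b.support) : wq b r j = wq b c j + k * wq b (Sum.inr β) j := by
  rw [l27_wq, l27_wq, l27_wq, h, map_add, map_smul]
  rfl

theorem fx_Pj {β : ι} {j : b.support} (h : 0 ≤ wq b (Sum.inr β) j) (a : K) : Pj j (fx b β a) := by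
  intro r c hrc
  have h1 : xx b β a r c = ∑ k ∈ Finset.range 4, a ^ k * ((dvp (E b β) k r c : ℤ) : K) := by
    unfold xx ex
    rw [Matrix.sum_apply]
    rfl
  rw [fx_val, h1]
  refine Finset.sum_eq_zero fun k _ => ?_
  by_cases h0 : dvp (E b β) k r c = 0
  · rw [h0, Int.cast_zero, mul_zero]
  · have h2 := wq_add (dvp_wt b β k r c h0) j
    have h3 : (0 : ℚ) ≤ k * wq b (Sum.inr β) j := mul_nonneg (Nat.cast_nonneg k) h
    rw [h2] at hrc
    exact absurd hrc (not_lt.2 (by linarith))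

theorem wq_simple (i j : b.support) : wq b (Sum.inr (i : ι)) j = if i = j then 1 else 0 := by
  change b.toWeightBasis.repr (P.root i) j = _
  have h1 : P.root i = b.toWeightBasis i := by simp
  rw [h1, Module.Basis.repr_self, Finsupp.single_apply]

theorem wq_ng (i j : b.support) : wq b (Sum.inr (ng P i)) j = -(if i = j then 1 else 0) := by
  rw [← wq_simple]
  change b.toWeightBasis.repr (P.root (ng P i)) j = -b.toWeightBasis.repr (P.root i) j
  rw [b2_root_neg, map_neg]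
  rfl

theorem fx_Pj_ng {i j : b.support} (h : i ≠ j) (a : K) : Pj j (fx b (ng P i) a) := fx_Pj (by rw [wq_ng, if_neg h, neg_zero]) a

theorem fx_Pj_i (i j : b.support) (a : K) : Pj j (fx b (i : ι) a) := (fx_Uu (f_ht i) a).toPj j

theorem fn_eq (i : b.support) : fn b K i = fx b (i : ι) (1 : K) * fx b (ng P i) (-1 : K) * fx b (i : ι) (1 : K) := by
  refine Subtype.ext ?_
  change mG b i (1 : Kˣ) = _
  rw [mG, inv_one]
  rfl

theorem fn_Pj {i j : b.support} (h : i ≠ j) : Pj j (fn b K i) := by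
  rw [fn_eq]
  exact ((fx_Pj_i i j _).mul (fx_Pj_ng h _)).mul (fx_Pj_i i j _)

/-! ## The level condition -/

variable {v : AbsoluteValue K ℝ} {ν : ℝ}

theorem Chi_P {j : b.support} {p : GK b K} (hp : Pj j p) (g : GK b K) : Chi v j ν (p * g) ↔ Chi v j ν g := by
  have key : ∀ {p g : GK b K}, Pj j p → Chi v j ν g → Chi v j ν (p * g) := by
    rintro p g hp ⟨q, hq, k, hk, rfl⟩
    exact ⟨p * q, hp.mul hq, k, hk, by group⟩
  refine ⟨fun h => ?_, key hp⟩
  have h1 := key hp.inv h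
  rw [inv_mul_cancel_left] at h1
  exact h1

theorem Chi_n {i j : b.support} (hij : i ≠ j) (r : K) (g : GK b K) : Chi v j ν (fn b K i * fx b (i : ι) r * g) ↔ Chi v j ν g :=
  Chi_P ((fn_Pj hij).mul (fx_Pj_i i j r)) g

variable (hv : IsNonarchimedean (v : K → ℝ))

include hv in
theorem Cg.mul (hν : ν ≤ 1) (h0 : 0 ≤ ν) {k l : GK b K} (hk : Cg v ν k) (hl : Cg v ν l) : Cg v ν (k * l) := by
  have key : ∀ A B : Matrix (I b) (I b) K, (∀ r c, v ((A - 1) r c) ≤ ν) → (∀ r c, v ((B - 1) r c) ≤ ν) → ∀ r c, v ((A * B - 1) r c) ≤ ν := by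
    intro A B hA hB r c
    have e : A * B - 1 = (A - 1) * (B - 1) + (A - 1) + (B - 1) := by
      rw [sub_mul, one_mul, mul_sub, mul_one]
      abel
    rw [e, Matrix.add_apply, Matrix.add_apply, Matrix.mul_apply]
    refine (hv _ _).trans (max_le ((hv _ _).trans (max_le (v_sum_le hv _ _ h0 fun s _ => ?_) (hA r c))) (hB r c))
    rw [map_mul]
    calc v ((A - 1) r s) * v ((B - 1) s c) ≤ ν * 1 := mul_le_mul (hA r s) ((hB s c).trans hν) (apply_nonneg v _) h0
      _ = ν := mul_one ν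
  refine ⟨key _ _ hk.1 hl.1, ?_⟩
  rw [_root_.mul_inv_rev]
  exact key _ _ hl.2 hk.2

theorem Cg.inv {k : GK b K} (hk : Cg v ν k) : Cg v ν k⁻¹ := ⟨hk.2, by rw [inv_inv]; exact hk.1⟩

theorem Cg.one (h0 : 0 ≤ ν) : Cg v ν (1 : GK b K) := by
  have h : ∀ r c, v (((1 : GK b K).1.1 - 1) r c) ≤ ν := by
    intro r c
    rw [f_one, sub_self, Matrix.zero_apply, map_zero]
    exact h0
  exact ⟨h, by rw [inv_one]; exact h⟩

include hv in
theorem Chi_K (hν : ν ≤ 1) (h0 : 0 ≤ ν) {j : b.support} {k : GK b K} (hk : Cg v ν k) (g : GK b K) : Chi v j ν (g * k) ↔ Chi v j ν g := by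
  have key : ∀ {k g : GK b K}, Cg v ν k → Chi v j ν g → Chi v j ν (g * k) := by
    rintro k g hk ⟨q, hq, k', hk', rfl⟩
    exact ⟨q, hq, k' * k, hk'.mul hv hν h0 hk, by group⟩
  refine ⟨fun h => ?_, key hk⟩
  have h1 := key hk.inv h
  rw [mul_inv_cancel_right] at h1
  exact h1

/-- The same for `1` in place of the level. -/
theorem Cg_one_iff (hv : IsNonarchimedean (v : K → ℝ)) {k : GK b K} : Cg v 1 k ↔ Iv v k := by
  have key : ∀ A : Matrix (I b) (I b) K, (∀ r c, v ((A - 1) r c) ≤ 1) ↔ ∀ r c, v (A r c) ≤ 1 := by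
    intro A
    have h1 : ∀ r c, v ((1 : Matrix (I b) (I b) K) r c) ≤ 1 := by
      intro r c
      by_cases h : r = c
      · subst h
        rw [Matrix.one_apply_eq, map_one]
      · rw [Matrix.one_apply_ne h, map_zero]
        exact zero_le_one
    constructor
    · intro h r c
      have e : A r c = (A - 1) r c + (1 : Matrix (I b) (I b) K) r c := by
        rw [Matrix.sub_apply, sub_add_cancel]
      rw [e]
      exact (hv _ _).trans (max_le (h r c) (h1 r c))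
    · intro h r c
      rw [Matrix.sub_apply, sub_eq_add_neg]
      exact (hv _ _).trans (max_le (h r c) (by rw [v.map_neg]; exact h1 r c))
  exact and_congr (key _) (key _)

include hv in
/-- The condition is empty for the level `1`. -/
theorem Chi_triv (j : b.support) (g : GK b K) : Chi v j 1 g := by
  obtain ⟨u, s, t, k, hu, ht, hk, rfl⟩ := iwasawa hv g
  exact ⟨u * t, (hu.toPj j).mul (ht.tor.toPj j), k, (Cg_one_iff hv).2 hk, rfl⟩

/-! ## The groups `PN` -/

include hv in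
theorem PN.mul (h0 : 0 ≤ ν) {j : b.support} {k l : GK b K} (hk : PN v j ν k) (hl : PN v j ν l) : PN v j ν (k * l) := by
  have key : ∀ A B : Matrix (I b) (I b) K, (∀ r c, v (A r c) ≤ 1) → (∀ r c, v (B r c) ≤ 1) → (∀ r c, wq b r j < wq b c j → v (A r c) ≤ ν) → (∀ r c, wq b r j < wq b c j → v (B r c) ≤ ν) →
      ∀ r c, wq b r j < wq b c j → v ((A * B) r c) ≤ ν := by
    intro A B hA hB hA' hB' r c hrc
    rw [Matrix.mul_apply]
    refine v_sum_le hv _ _ h0 fun s _ => ?_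
    rw [map_mul]
    by_cases h : wq b r j < wq b s j
    · calc v (A r s) * v (B s c) ≤ ν * 1 := mul_le_mul (hA' r s h) (hB s c) (apply_nonneg v _) h0
        _ = ν := mul_one ν
    · calc v (A r s) * v (B s c) ≤ 1 * ν := mul_le_mul (hA r s) (hB' s c (lt_of_le_of_lt (not_lt.1 h) hrc)) (apply_nonneg v _) zero_le_one
        _ = ν := one_mul ν
  refine ⟨hk.1.mul hv hl.1, key _ _ hk.1.1 hl.1.1 hk.2.1 hl.2.1, ?_⟩
  rw [_root_.mul_inv_rev]
  exact key _ _ hl.1.2 hk.1.2 hl.2.2 hk.2.2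

theorem PN.inv {j : b.support} {k : GK b K} (hk : PN v j ν k) : PN v j ν k⁻¹ := ⟨hk.1.inv, hk.2.2, by rw [inv_inv]; exact hk.2.1⟩

theorem Pj.toPN (h0 : 0 ≤ ν) {j : b.support} {p : GK b K} (hp : Pj j p) (hi : Iv v p) : PN v j ν p :=
  ⟨hi, fun r c h => by rw [hp r c h, map_zero]; exact h0, fun r c h => by rw [hp.inv r c h, map_zero]; exact h0⟩

include hv in
theorem Cg.toPN (h1 : ν ≤ 1) {j : b.support} {k : GK b K} (hk : Cg v ν k) : PN v j ν k := by
  have hk1 : Cg v 1 k := ⟨fun r c => (hk.1 r c).trans h1, fun r c => (hk.2 r c).trans h1⟩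
  have key : ∀ A : Matrix (I b) (I b) K, (∀ r c, v ((A - 1) r c) ≤ ν) → ∀ r c, wq b r j < wq b c j → v (A r c) ≤ ν := by
    intro A hA r c hrc
    have e : A r c = (A - 1) r c := by
      rw [Matrix.sub_apply, Matrix.one_apply_ne fun e => by subst e; exact lt_irrefl _ hrc, sub_zero]
    rw [e]
    exact hA r c
  exact ⟨(Cg_one_iff hv).1 hk1, key _ hk.1, key _ hk.2⟩

include hv in
/-- The level condition for `u t κ`, `κ` integral. -/
theorem Chi.toPN (h0 : 0 ≤ ν) (h1 : ν ≤ 1) {j : b.support} {u t κ : GK b K} (hu : Uu u) (ht : Tor t) (hκ : Iv v κ) (h : Chi v j ν (u * t * κ)) : PN v j ν κ := by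
  obtain ⟨p, hp, k, hk, e⟩ := h
  have e1 : κ = ((u * t)⁻¹ * p) * k := by
    rw [mul_assoc, ← e, inv_mul_cancel_left]
  have hk' : PN v j ν k := hk.toPN hv h1
  have h2 : Pj j ((u * t)⁻¹ * p) := (((hu.toPj j).mul (ht.toPj j)).inv).mul hp
  have h3 : (u * t)⁻¹ * p = κ * k⁻¹ := by
    rw [e1]
    group
  have h4 : Iv v ((u * t)⁻¹ * p) := by
    rw [h3]
    exact hκ.mul hv hk'.1.inv
  rw [e1]
  exact (h2.toPN h0 h4).mul hv h0 hk'

/-! ## Reading an entry -/

theorem fy_entry (i : b.support) (a : K) : (fx b (ng P i) a).1.1 (Sum.inl i) (Sum.inr (i : ι)) = a := by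
  have h1 : xx b (ng P i) a (Sum.inl i) (Sum.inr (i : ι)) = ∑ k ∈ Finset.range 4, a ^ k * ((dvp (E b (ng P i)) k (Sum.inl i) (Sum.inr (i : ι)) : ℤ) : K) := by
    unfold xx ex
    rw [Matrix.sum_apply]
    rfl
  rw [fx_val, h1, Finset.sum_eq_single 1]
  · have h2 : dvp (E b (ng P i)) 1 = E b (ng P i) := by
      ext r c
      simp [dvp]
    rw [h2, E_neg_simple, pow_one]
    simp [fZ]
  · intro k _ hk
    by_cases h0 : dvp (E b (ng P i)) k (Sum.inl i) (Sum.inr (i : ι)) = 0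
    · rw [h0, Int.cast_zero, mul_zero]
    · exfalso
      have h2 := wq_add (dvp_wt b (ng P i) k _ _ h0) i
      rw [wq_ng, wq_simple, if_pos rfl] at h2
      have h3 : wq b (Sum.inl i) i = 0 := rfl
      rw [h3] at h2
      have h4 : (k : ℚ) = 1 := by linarith
      exact hk (by exact_mod_cast h4)
  · intro h
    exact absurd (Finset.mem_range.2 (by norm_num)) h

theorem fn_entry (hv : IsNonarchimedean (v : K → ℝ)) (i : b.support) : v ((fn b K i).1.1 (Sum.inr (ng P i)) (Sum.inr (i : ι))) = 1 := by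
  have hI := fn_Iv (b := b) hv i
  have h1 : ((fn b K i).1.1 * ((fn b K i)⁻¹).1.1) (Sum.inr (ng P i)) (Sum.inr (ng P i)) = 1 := by rw [f_mi, Matrix.one_apply_eq]
  rw [Matrix.mul_apply, Finset.sum_eq_single (Sum.inr (i : ι))] at h1
  · have h2 : v ((fn b K i).1.1 (Sum.inr (ng P i)) (Sum.inr (i : ι))) * v (((fn b K i)⁻¹).1.1 (Sum.inr (i : ι)) (Sum.inr (ng P i))) = 1 := by rw [← map_mul, h1, map_one]
    have h3 := hI.1 (Sum.inr (ng P i)) (Sum.inr (i : ι))
    have h4 := hI.2 (Sum.inr (i : ι)) (Sum.inr (ng P i))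
    have h5 : 0 ≤ v ((fn b K i).1.1 (Sum.inr (ng P i)) (Sum.inr (i : ι))) := apply_nonneg v _
    nlinarith
  · intro s _ hs
    by_cases h0 : (fn b K i).1.1 (Sum.inr (ng P i)) s = 0
    · rw [h0, zero_mul]
    · exfalso
      have h2 : wt b (Sum.inr (ng P i)) = P.reflection i (wt b s) := mG_over b i (1 : Kˣ) _ _ h0
      have h3 : wt b s = P.root i := by
        have h4 : P.reflection i (wt b (Sum.inr (ng P i))) = wt b s := by
          rw [h2, RootPairing.reflection_same]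
        rw [← h4]
        change P.reflection i (P.root (ng P i)) = P.root i
        rw [b2_root_neg, map_neg, RootPairing.reflection_apply_self, neg_neg]
      rcases s with j | β
      · have h5 : (0 : M) = P.root i := h3
        exact P.ne_zero i h5.symm
      · have h5 : P.root β = P.root i := h3
        exact hs (congrArg Sum.inr (P.root.injective h5))
  · intro h
    exact absurd (Finset.mem_univ _) h

include hv in
theorem no_fn {i : b.support} (hν : ν < 1) (h : PN v i ν (fn b K i)) : False := by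
  have h1 := h.2.1 (Sum.inr (ng P i)) (Sum.inr (i : ι)) (by rw [wq_ng, wq_simple, if_pos rfl]; norm_num)
  rw [fn_entry hv i] at h1
  exact absurd h1 (not_le.2 hν)

include hv in
/-- The mixed case. -/
theorem no_mix {i : b.support} (h0 : 0 ≤ ν) (hν : ν < 1) {k : GK b K} {ρ ρ' : K} (hρ : v ρ ≤ 1) (hρ' : ¬v ρ' ≤ 1) (h : PN v i ν (kap v i ρ * k)) (h' : PN v i ν (kap v i ρ' * k)) : False := by
  have h1 : PN v i ν (kap v i ρ' * (kap v i ρ)⁻¹) := by
    have e : kap v i ρ' * (kap v i ρ)⁻¹ = kap v i ρ' * k * (kap v i ρ * k)⁻¹ := by group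
    rw [e]
    exact h'.mul hv h0 h.inv
  unfold kap at h1
  rw [if_pos hρ, if_neg hρ'] at h1
  have hρ0 : ρ' ≠ 0 := by
    intro h0
    rw [h0, map_zero] at hρ'
    exact hρ' zero_le_one
  have ha : v ρ'⁻¹ < 1 := by
    rw [map_inv₀]
    exact inv_lt_one_of_one_lt₀ (not_le.1 hρ')
  have hq1 : v (ρ'⁻¹ * -ρ) < 1 := by
    rw [map_mul, v.map_neg]
    exact mul_lt_one_of_nonneg_of_lt_one_left (apply_nonneg v _) ha hρ
  have hq : v (1 + ρ'⁻¹ * -ρ) = 1 := by
    refine le_antisymm ((hv _ _).trans (max_le (map_one v).le hq1.le)) ?_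
    by_contra hlt
    have h2 : v ((1 + ρ'⁻¹ * -ρ) + -(ρ'⁻¹ * -ρ)) ≤ max (v (1 + ρ'⁻¹ * -ρ)) (v (-(ρ'⁻¹ * -ρ))) := hv _ _
    rw [add_neg_cancel_right, map_one, v.map_neg] at h2
    rcases le_max_iff.1 h2 with h3 | h3
    · exact hlt h3
    · exact absurd h3 (not_le.2 hq1)
  have hq0 : 1 + ρ'⁻¹ * -ρ ≠ 0 := by
    intro e
    rw [e, map_zero] at hq
    exact zero_ne_one hq
  set q : Kˣ := Units.mk0 _ hq0 with hqdef
  have hqv : v ((q⁻¹ : Kˣ) : K) = 1 := by rw [Units.val_inv_eq_inv_val, map_inv₀, hqdef, Units.val_mk0, hq, inv_one]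
  have e1 : fx b (ng P i) ρ'⁻¹ * fx b (i : ι) (-ρ) = fx b (i : ι) (-ρ * ((q⁻¹ : Kˣ) : K)) * fh b i q⁻¹ * fx b (ng P i) (ρ'⁻¹ * ((q⁻¹ : Kˣ) : K)) :=
    Subtype.ext (rk_yx b i ρ'⁻¹ (-ρ) q rfl)
  have e2 : fx b (ng P i) (ρ'⁻¹ * ((q⁻¹ : Kˣ) : K)) * (fn b K i)⁻¹ = (fn b K i)⁻¹ * fx b (i : ι) (-(ρ'⁻¹ * ((q⁻¹ : Kˣ) : K))) := by
    rw [eq_inv_mul_iff_mul_eq, ← mul_assoc, fn_y]
    group
  have e3 : (fn b K i)⁻¹ = (fx b (i : ι) (-ρ * ((q⁻¹ : Kˣ) : K)) * fh b i q⁻¹)⁻¹ * (fx b (ng P i) ρ'⁻¹ * (fn b K i * fx b (i : ι) ρ)⁻¹) * (fx b (i : ι) (-(ρ'⁻¹ * ((q⁻¹ : Kˣ) : K))))⁻¹ := by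
    have e4 : fx b (ng P i) ρ'⁻¹ * (fn b K i * fx b (i : ι) ρ)⁻¹ = fx b (i : ι) (-ρ * ((q⁻¹ : Kˣ) : K)) * fh b i q⁻¹ * ((fn b K i)⁻¹ * fx b (i : ι) (-(ρ'⁻¹ * ((q⁻¹ : Kˣ) : K)))) := by
      rw [_root_.mul_inv_rev, ← fx_neg, ← mul_assoc, e1, mul_assoc, e2]
    rw [e4]
    group
  have hI1 : Iv v (fx b (i : ι) (-ρ * ((q⁻¹ : Kˣ) : K))) := fx_Iv hv _ (by rw [map_mul, v.map_neg, hqv, mul_one]; exact hρ)
  have hI2 : Iv v (fh b i q⁻¹) := fh_Iv i hqv
  have hI3 : Iv v (fx b (i : ι) (-(ρ'⁻¹ * ((q⁻¹ : Kˣ) : K)))) := fx_Iv hv _ (by rw [v.map_neg, map_mul, hqv, mul_one]; exact ha.le)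
  have h5 : PN v i ν (fx b (i : ι) (-ρ * ((q⁻¹ : Kˣ) : K)) * fh b i q⁻¹) := ((fx_Pj_i i i _).mul ((fh_Tor i _).toPj i)).toPN h0 (hI1.mul hv hI2)
  have h6 : PN v i ν (fx b (i : ι) (-(ρ'⁻¹ * ((q⁻¹ : Kˣ) : K)))) := (fx_Pj_i i i _).toPN h0 hI3
  have h7 : PN v i ν (fn b K i)⁻¹ := by
    rw [e3]
    exact (h5.inv.mul hv h0 h1).mul hv h0 h6.inv
  have h8 := h7.inv
  rw [inv_inv] at h8
  exact no_fn hv hν h8

include hv in
/-- **The level lemma.** -/
theorem level {i : b.support} (h0 : 0 ≤ ν) (hν : ν ≤ 1) {k : GK b K} {ρ ρ' : K} (h : PN v i ν (kap v i ρ * k)) (h' : PN v i ν (kap v i ρ' * k)) :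
    v (ρ - ρ') ≤ ν * max 1 (v ρ) * max 1 (v ρ') := by
  have m1 : (1 : ℝ) ≤ max 1 (v ρ) := le_max_left _ _
  have m2 : (1 : ℝ) ≤ max 1 (v ρ') := le_max_left _ _
  rcases eq_or_lt_of_le hν with hν1 | hν1
  · rw [hν1, one_mul, sub_eq_add_neg]
    refine (hv _ _).trans (max_le ?_ ?_)
    · exact (le_max_right 1 (v ρ)).trans (le_mul_of_one_le_right (zero_le_one.trans m1) m2)
    · rw [v.map_neg]
      exact (le_max_right 1 (v ρ')).trans (le_mul_of_one_le_left (zero_le_one.trans m2) m1)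
  · by_cases c1 : v ρ ≤ 1
    · by_cases c2 : v ρ' ≤ 1
      · have h1 : PN v i ν (kap v i ρ' * (kap v i ρ)⁻¹) := by
          have e : kap v i ρ' * (kap v i ρ)⁻¹ = kap v i ρ' * k * (kap v i ρ * k)⁻¹ := by group
          rw [e]
          exact h'.mul hv h0 h.inv
        have e1 : kap v i ρ' * (kap v i ρ)⁻¹ = fx b (ng P i) (ρ - ρ') := by
          unfold kap
          rw [if_pos c1, if_pos c2]
          have e2 : fn b K i * fx b (i : ι) ρ' * (fn b K i * fx b (i : ι) ρ)⁻¹ = fn b K i * fx b (i : ι) (ρ' - ρ) * (fn b K i)⁻¹ := by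
            rw [sub_eq_add_neg, fx_add, fx_neg]
            group
          rw [e2, fn_x, neg_sub]
          group
        rw [e1] at h1
        have h2 := h1.2.1 (Sum.inl i) (Sum.inr (i : ι)) (by rw [wq_simple, if_pos rfl]; exact zero_lt_one)
        rw [fy_entry] at h2
        refine h2.trans ?_
        rw [mul_assoc]
        exact le_mul_of_one_le_right h0 (one_le_mul_of_one_le_of_one_le m1 m2)
      · exact (no_mix hv h0 hν1 c1 c2 h h').elim
    · by_cases c2 : v ρ' ≤ 1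
      · exact (no_mix hv h0 hν1 c2 c1 h' h).elim
      · have h1 : PN v i ν (kap v i ρ' * (kap v i ρ)⁻¹) := by
          have e : kap v i ρ' * (kap v i ρ)⁻¹ = kap v i ρ' * k * (kap v i ρ * k)⁻¹ := by group
          rw [e]
          exact h'.mul hv h0 h.inv
        have e1 : kap v i ρ' * (kap v i ρ)⁻¹ = fx b (ng P i) (ρ'⁻¹ - ρ⁻¹) := by
          unfold kap
          rw [if_neg c1, if_neg c2, sub_eq_add_neg, fx_add, fx_neg]
        rw [e1] at h1
        have h2 := h1.2.1 (Sum.inl i) (Sum.inr (i : ι)) (by rw [wq_simple, if_pos rfl]; exact zero_lt_one)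
        rw [fy_entry] at h2
        have hρ : ρ ≠ 0 := by
          intro h0
          rw [h0, map_zero] at c1
          exact c1 zero_le_one
        have hρ' : ρ' ≠ 0 := by
          intro h0
          rw [h0, map_zero] at c2
          exact c2 zero_le_one
        have e2 : ρ - ρ' = (ρ'⁻¹ - ρ⁻¹) * ρ * ρ' := by
          field_simp
        rw [e2, map_mul, map_mul, max_eq_right (not_le.1 c1).le, max_eq_right (not_le.1 c2).le]
        exact mul_le_mul_of_nonneg_right (mul_le_mul_of_nonneg_right h2 (apply_nonneg v _)) (apply_nonneg v _)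

include hv in
/-- **The level lemma for** `z = u t k`. -/
theorem level_z {i : b.support} (h0 : 0 ≤ ν) (hν : ν ≤ 1) {u t k : GK b K} {s : b.support → Kˣ} (hu : Uu u) (ht : Tors s t) (hk : Iv v k) {r r' : K}
    (h : Chi v i ν (fn b K i * fx b (i : ι) r * (u * t * k))) (h' : Chi v i ν (fn b K i * fx b (i : ι) r' * (u * t * k))) :
    v (r - r') * Av v i (u * t * k) ≤ ν * max (Av v i (u * t * k)) (v (r + fc i u)) * max (Av v i (u * t * k)) (v (r' + fc i u)) := by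
  obtain ⟨⟨u₁, t₁, hu₁, ht₁, e₁⟩, _⟩ := rank_one hv i hu ht hk r
  obtain ⟨⟨u₂, t₂, hu₂, ht₂, e₂⟩, _⟩ := rank_one hv i hu ht hk r'
  rw [e₁] at h
  rw [e₂] at h'
  have h1 := Chi.toPN hv h0 hν hu₁ ht₁ ((kap_Iv hv i _).mul hv hk) h
  have h2 := Chi.toPN hv h0 hν hu₂ ht₂ ((kap_Iv hv i _).mul hv hk) h'
  have h3 := level hv h0 hν h1 h2
  have hA : Av v i (u * t * k) = v (ch s (Sum.inr (i : ι))) := by rw [Av_eq hv hu ht.tor hk, ht.val]
  rw [hA]
  set χ := ch s (Sum.inr (i : ι)) with hχ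
  have hχ0 : χ ≠ 0 := ch_ne s _
  have hv0 : 0 < v χ := v.pos hχ0
  have e3 : (r + fc i u) / χ - (r' + fc i u) / χ = (r - r') / χ := by
    rw [← sub_div]
    congr 1
    ring
  have e4 : ∀ x : K, max 1 (v (x / χ)) = max (v χ) (v x) / v χ := by
    intro x
    rw [map_div₀, ← max_div_div_right hv0.le, div_self hv0.ne']
  rw [e3, e4, e4, map_div₀] at h3
  rw [div_le_iff₀ hv0] at h3
  have h4 := mul_le_mul_of_nonneg_right h3 hv0.le
  refine h4.trans (le_of_eq ?_)
  field_simp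

end

end Pool.Agent.Lib.L8.FI
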