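import Pool.Agent.Lib.L8.FI.G1

/-!
# FI: the height function `f_e`
-/

namespace Pool.Agent.Lib.L8.FI

open Matrix NumberField IsDedekindDomain Pool.Agent.Lib.H89N Pool.Agent.Lib.L1S
open Pool.Agent.Lib.L8.FL (av aI Gv Kv IwA Ah TK tv PJ G1 fe se mu xe)

noncomputable section

set_option linter.unusedSectionVars false

variable {ι M N : Type} [Fintype ι] [DecidableEq ι] [AddCommGroup M] [Module ℚ M] [AddCommGroup N] [Module ℚ N]
  {P : RootPairing ι ℚ M N} [P.IsCrystallographic] [P.IsReduced] [P.IsIrreducible] [P.IsRootSystem] (b : P.Base) {K : Type} [Field K] [NumberField K]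

theorem g2_rpow {A : HeightOneSpectrum (𝓞 K) → ℝ} (hA : ∀ v, 0 < A v) (hf : {v | A v ≠ 1}.Finite) (x : ℝ) : ∏ᶠ v, A v ^ x = (∏ᶠ v, A v) ^ x := by
  have h1 : (Function.mulSupport A).Finite := hf
  have h2 : Function.mulSupport (fun v => A v ^ x) ⊆ h1.toFinset := by
    intro v hv
    rw [Set.Finite.coe_toFinset]
    intro h
    apply hv
    show A v ^ x = 1
    rw [h, Real.one_rpow]
  rw [finprod_eq_prod_of_mulSupport_subset _ h2, finprod_eq_prod_of_mulSupport_subset A (s := h1.toFinset) (by rw [Set.Finite.coe_toFinset]), Real.finsetProd_rpow]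
  exact fun v _ => (hA v).le

theorem g2_prod {A : b.support → HeightOneSpectrum (𝓞 K) → ℝ} (hA : ∀ k v, 0 < A k v) (hf : ∀ k, {v | A k v ≠ 1}.Finite) (e : b.support → ℝ) :
    ∏ᶠ v, ∏ k, A k v ^ e k = ∏ k, (∏ᶠ v, A k v) ^ e k := by
  rw [finprod_prod_comm]
  · exact Finset.prod_congr rfl fun k _ => g2_rpow (hA k) (hf k) (e k)
  · intro k _
    refine (hf k).subset fun v hv h => hv ?_
    show A k v ^ e k = 1
    rw [h, Real.one_rpow]

/-- **The height function in product form.** -/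
theorem fe_eq (e : b.support → ℝ) (g : GK b K) : fe b e g = ∏ k, (∏ᶠ v, Ah b v g k) ^ e k :=
  g2_prod b (A := fun k v => Ah b v g k) (fun k v => Ah_pos b v g k) (fun k => Ah_fin b g k) e

theorem g2_pos {A : HeightOneSpectrum (𝓞 K) → ℝ} (hA : ∀ v, 0 < A v) : 0 < ∏ᶠ v, A v :=
  finprod_induction (fun x : ℝ => 0 < x) one_pos (fun _ _ => mul_pos) hA

theorem fe_pos (e : b.support → ℝ) (g : GK b K) : 0 < fe b e g :=
  g2_pos fun v => Finset.prod_pos fun k _ => Real.rpow_pos_of_pos (Ah_pos b v g k) _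

theorem fe_U (e : b.support → ℝ) {u : GK b K} (hu : u ∈ HU b K) (g : GK b K) : fe b e (u * g) = fe b e g :=
  finprod_congr fun v => Finset.prod_congr rfl fun k _ => by rw [Ah_U b v hu]

/-- The absolute values of the simple roots of a torus element. -/
theorem tv_ne {t : GK b K} (ht : t ∈ TK b K) (k : b.support) : tv b K t k ≠ 0 := ((g1_TK b t).1 ht).ne _

theorem tv_mul {t t' : GK b K} (ht : t ∈ TK b K) (k : b.support) : tv b K (t * t') k = tv b K t k * tv b K t' k := ((g1_TK b t).1 ht).mul_val _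

theorem tv_inv {t : GK b K} (ht : t ∈ TK b K) (k : b.support) : tv b K t⁻¹ k = (tv b K t k)⁻¹ := ((g1_TK b t).1 ht).inv_val _

/-- **The torus acts by its character.** -/
theorem fe_T (e : b.support → ℝ) {t : GK b K} (ht : t ∈ TK b K) (g : GK b K) : fe b e (t * g) = (∏ k, (∏ᶠ v, av v (tv b K t k)) ^ e k) * fe b e g := by
  have hp : ∀ k v, 0 < av v (tv b K t k) := fun k v => (av v).pos (tv_ne b ht k)
  rw [fe_eq, fe_eq, ← Finset.prod_mul_distrib]
  refine Finset.prod_congr rfl fun k _ => ?_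
  rw [← Real.mul_rpow (g2_pos fun v => hp k v).le (g2_pos fun v => Ah_pos b v g k).le, ← finprod_mul_distrib (g1_fin1 (tv_ne b ht k)) (Ah_fin b g k)]
  congr 1
  exact finprod_congr fun v => Ah_T b v ht g k

/-- **Right invariance.** -/
theorem fe_G1 (e : b.support → ℝ) {𝔫 : Ideal (𝓞 K)} (h0 : 𝔫 ≠ ⊥) {k : GK b K} (hk : k ∈ G1 b 𝔫) (g : GK b K) : fe b e (g * k) = fe b e g :=
  finprod_congr fun v => Finset.prod_congr rfl fun j _ => by rw [Ah_G1 b v h0 hk]

theorem fe_Gv (e : b.support → ℝ) {g : GK b K} (hg : ∀ v : HeightOneSpectrum (𝓞 K), g ∈ Gv b v) : fe b e g = 1 := by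
  unfold fe
  rw [← finprod_one (M := ℝ) (α := HeightOneSpectrum (𝓞 K))]
  refine finprod_congr fun v => ?_
  exact Finset.prod_eq_one fun k _ => by rw [Ah_Gv b v (hg v), Real.one_rpow]

/-- The effect of `s_i` on the parameter. -/
theorem fe_se (e : b.support → ℝ) (i : b.support) (g : GK b K) : fe b (se b i e) g = fe b e g * (∏ᶠ v, Ah b v g i) ^ (-mu b e i) := by
  rw [fe_eq, fe_eq, ← Finset.mul_prod_erase _ _ (Finset.mem_univ i), ← Finset.mul_prod_erase Finset.univ (fun k => (∏ᶠ v, Ah b v g k) ^ e k) (Finset.mem_univ i)]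
  have h1 : ∏ k ∈ Finset.univ.erase i, (∏ᶠ v, Ah b v g k) ^ (se b i e k) = ∏ k ∈ Finset.univ.erase i, (∏ᶠ v, Ah b v g k) ^ e k := by
    refine Finset.prod_congr rfl fun k hk => ?_
    unfold se
    rw [if_neg (Finset.ne_of_mem_erase hk)]
  have h2 : se b i e i = e i + -mu b e i := by
    unfold se
    rw [if_pos rfl, sub_eq_add_neg]
  rw [h1, h2, Real.rpow_add (g2_pos fun v => Ah_pos b v g i)]
  ring

end

end Pool.Agent.Lib.L8.FI
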